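import Pool.Agent.Lib.MP_4b35b9_lc.Rel.Ncr

/-!
The set of initial segments of a branch of a tree on the natural numbers, as a real.
-/

namespace Pool.Agent.Lib.MP_4b35b9_lc.Rel

open Pool.Agent.Shared.Oracle Encodable Denumerable

/-- The initial segment of length `k` of a sequence of numbers. -/
def sgn (f : ℕ → ℕ) (k : ℕ) : List ℕ := (List.range k).map f

@[simp] theorem sgn_length (f : ℕ → ℕ) (k : ℕ) : (sgn f k).length = k := by simp [sgn]

theorem sgn_take (f : ℕ → ℕ) {k l : ℕ} (h : k ≤ l) : (sgn f l).take k = sgn f k := by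
  rw [sgn, ← List.map_take, List.take_range, min_eq_left h, sgn]

theorem sgn_getD (f : ℕ → ℕ) {k i : ℕ} (h : i < k) : (sgn f k).getD i 0 = f i := by
  simp [sgn, h]

theorem cin_sgn {O : Set (ℕ →. ℕ)} {f : ℕ → ℕ} (h : ComputableIn O f) :
    ComputableIn O (sgn f) := by
  have h1 : ComputableIn₂ O fun (_ : ℕ) (p : ℕ × List ℕ) => p.2 ++ [f p.1] :=
    cin_comp₂ (f := fun (l : List ℕ) (a : ℕ) => l ++ [a])
      Primrec.list_concat.computableIn₂ (Primrec.snd.comp Primrec.snd).computableIn
      (cin_comp h (Primrec.fst.comp Primrec.snd).computableIn)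
  refine cin_of_eq (cin_nat_rec ComputableIn.id (ComputableIn.const ([] : List ℕ)) h1) ?_
  intro k
  induction k with
  | zero => rfl
  | succ k ih =>
    rw [sgn, List.range_succ, List.map_append, ← sgn, ← ih]
    rfl

/-- The list with a given code. -/
def ls (a : ℕ) : List ℕ := ofNat (List ℕ) a

theorem prim_ls : Primrec ls := Primrec.ofNat _

theorem ls_encode (s : List ℕ) : ls (encode s) = s := ofNat_encode s

/-- The set of the codes of the initial segments of `f`. -/
def chain (f : ℕ → ℕ) (a : ℕ) : Bool := decide (ls a = sgn f (ls a).length)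

theorem chain_iff {f : ℕ → ℕ} {a : ℕ} : chain f a = true ↔ ls a = sgn f (ls a).length := by
  simp only [chain, decide_eq_true_eq]

theorem cin_chain {O : Set (ℕ →. ℕ)} {f : ℕ → ℕ} (h : ComputableIn O f) :
    ComputableIn O (chain f) := by
  have h1 := cin_comp (cin_sgn h) (Primrec.list_length.comp prim_ls).computableIn
  have h2 : Primrec fun p : List ℕ × List ℕ => decide (p.1 = p.2) := Primrec.eq.decide
  have h3 := cin_prim h2 (cin_pair prim_ls.computableIn h1)
  exact cin_of_eq h3 fun a => by simp only [chain]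

theorem cin_of_chain (f : ℕ → ℕ) : ComputableIn {orc (chain f)} f := by
  have h1 : PrimrecPred fun p : Bool × ℕ × ℕ => p.1 = true ∧ (ls p.2.2).length = p.2.1 + 1 :=
    (prim_true Primrec.fst).and (Primrec.eq.comp (Primrec.list_length.comp (prim_ls.comp
      (Primrec.snd.comp Primrec.snd))) (Primrec.succ.comp (Primrec.fst.comp Primrec.snd)))
  have h2 := cin_pair (cin_comp (cin_orc (X := chain f) (O := {orc (chain f)}) rfl)
    (Primrec.snd (α := ℕ)).computableIn) Primrec.id.computableIn
  obtain ⟨g, g1, g2⟩ := cin_search h1 h2 fun n => ⟨encode (sgn f (n + 1)), by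
    simp only [id, chain_iff, ls_encode, sgn_length, and_self]⟩
  have h3 : Primrec fun p : ℕ × ℕ => (ls p.1).getD p.2 0 :=
    (Primrec.list_getD 0).comp (prim_ls.comp Primrec.fst) Primrec.snd
  refine cin_of_eq (cin_prim h3 (cin_pair g1 Primrec.id.computableIn)) fun n => ?_
  obtain ⟨a1, a2⟩ := g2 n
  simp only [id] at a1 a2 ⊢
  rw [chain_iff.1 a1, a2, sgn_getD f (Nat.lt_succ_self n)]

/-- The binary tree whose branches are the chains of nodes with the property `T`. -/
def Ch (T : List ℕ → Prop) (σ : List Bool) : Prop :=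
  ∀ a < σ.length, ∀ b < σ.length, σ.getD a false = true → T (ls a) ∧
    ((ls b).length ≤ (ls a).length → (σ.getD b false = true ↔ ls b = (ls a).take (ls b).length))

theorem prim_Ch {T : List ℕ → Prop} (hT : PrimrecPred T) : PrimrecPred (Ch T) := by
  have a : Primrec fun z : ℕ × ℕ × List Bool => ls z.2.1 :=
    prim_ls.comp (Primrec.fst.comp Primrec.snd)
  have b : Primrec fun z : ℕ × ℕ × List Bool => ls z.1 := prim_ls.comp Primrec.fst
  have s : Primrec fun z : ℕ × ℕ × List Bool => z.2.2 := Primrec.snd.comp Primrec.snd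
  have h1 := prim_true ((Primrec.list_getD false).comp s (Primrec.fst.comp Primrec.snd))
  have h2 := prim_true ((Primrec.list_getD false).comp s Primrec.fst)
  have h3 := Primrec.eq.comp b (Primrec.list_take.comp (Primrec.list_length.comp b) a)
  have h4 := prim_imp h1 ((hT.comp a).and (prim_imp (Primrec.nat_le.comp
    (Primrec.list_length.comp b) (Primrec.list_length.comp a))
      ((prim_imp h2 h3).and (prim_imp h3 h2))))
  have h5 := prim_forall_lt (R := fun (b : ℕ) (y : ℕ × List Bool) => y.2.getD y.1 false = true →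
    T (ls y.1) ∧ ((ls b).length ≤ (ls y.1).length →
      (y.2.getD b false = true ↔ ls b = (ls y.1).take (ls b).length)))
    (Primrec.list_length.comp Primrec.snd) (h4.of_eq fun z => by simp only [← iff_def])
  exact prim_forall_lt (R := fun (a : ℕ) (σ : List Bool) => ∀ b < σ.length,
    σ.getD a false = true → T (ls a) ∧ ((ls b).length ≤ (ls a).length →
      (σ.getD b false = true ↔ ls b = (ls a).take (ls b).length))) Primrec.list_length h5

theorem ch_seg {T : List ℕ → Prop} {Z : ℕ → Bool} {k : ℕ} : Ch T (seg Z k) ↔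
    ∀ a < k, ∀ b < k, Z a = true → T (ls a) ∧
      ((ls b).length ≤ (ls a).length → (Z b = true ↔ ls b = (ls a).take (ls b).length)) := by
  rw [Ch, seg_length]
  refine forall₂_congr fun a ha => forall₂_congr fun b hb => ?_
  rw [seg_getD Z ha, seg_getD Z hb]

theorem ncr_chain {T : List ℕ → Prop} (hT : PrimrecPred T)
    (hc : {f | ∀ k, T (sgn f k)}.Countable) {f : ℕ → ℕ} (hf : ∀ k, T (sgn f k)) :
    NCR (chain f) := by
  classical
  refine ncr_of_tree (fun Z k h => ch_seg.2 fun a ha b hb =>
    ch_seg.1 h a (by omega) b (by omega)) ?_ (prim_Ch hT) fun k => ch_seg.2 fun a _ b _ ha => ?_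
  · refine (((Set.countable_singleton fun _ => false).union (Set.countable_range
      fun (a b : ℕ) => decide ((ls b).length ≤ (ls a).length ∧
        ls b = (ls a).take (ls b).length))).union (hc.image chain)).mono fun Z hZ => ?_
    have h : ∀ a b, Z a = true → T (ls a) ∧ ((ls b).length ≤ (ls a).length →
        (Z b = true ↔ ls b = (ls a).take (ls b).length)) := fun a b =>
      ch_seg.1 (hZ (a + b + 1)) a (by omega) b (by omega)
    by_cases h0 : ∀ n, ∃ a, Z a = true ∧ n ≤ (ls a).length
    · choose c c1 c2 using h0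
      have h1 : ∀ n a, Z a = true → n ≤ (ls a).length → (ls a).take n = (ls (c n)).take n := by
        intro n a ha hn
        rcases le_total (ls a).length (ls (c n)).length with h2 | h2
        · rw [((h (c n) a (c1 n)).2 h2).1 ha, List.take_take, min_eq_left hn]
        · rw [((h a (c n) ha).2 h2).1 (c1 n), List.take_take, min_eq_left (c2 n)]
      let g : ℕ → ℕ := fun i => (ls (c (i + 1))).getD i 0
      have h2 : ∀ n, (ls (c n)).take n = sgn g n := by
        intro n
        refine List.ext_getElem? fun i => ?_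
        by_cases hi : i < n
        · have a1 := congrArg (·[i]?) (h1 (i + 1) (c n) (c1 n) (hi.trans_le (c2 n)))
          have a2 := c2 (i + 1)
          simp only [List.getElem?_take, Nat.lt_succ_self, if_true] at a1
          rw [List.getElem?_take, if_pos hi, a1]
          simp [sgn, hi, g, List.getElem?_eq_getElem (show i < (ls (c (i + 1))).length by omega)]
        · rw [List.getElem?_take, if_neg hi, List.getElem?_eq_none (by simpa using hi)]
      have h3 : ∀ b, Z b = true ↔ ls b = sgn g (ls b).length := fun b => by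
        rw [← h2]
        exact (h _ b (c1 _)).2 (c2 _)
      refine Or.inr ⟨g, fun k => ?_, funext fun b => Bool.eq_iff_iff.2 (chain_iff.trans (h3 b).symm)⟩
      have h4 := (h _ 0 ((h3 (encode (sgn g k))).2 (by rw [ls_encode, sgn_length]))).1
      rwa [ls_encode] at h4
    left
    by_cases h1 : ∃ a, Z a = true
    · push Not at h0
      obtain ⟨n, hn⟩ := h0
      obtain ⟨a, ha, hmax⟩ : ∃ a, Z a = true ∧ ∀ b, Z b = true → (ls b).length ≤ (ls a).length := by
        by_contra h2
        push Not at h2
        have h3 : ∀ m, ∃ a, Z a = true ∧ m ≤ (ls a).length := by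
          intro m
          induction m with
          | zero => exact h1.imp fun a ha => ⟨ha, Nat.zero_le _⟩
          | succ m ih =>
            obtain ⟨a, a1, a2⟩ := ih
            obtain ⟨b, b1, b2⟩ := h2 a a1
            exact ⟨b, b1, by omega⟩
        obtain ⟨a, a1, a2⟩ := h3 n
        exact absurd (hn a a1) (by omega)
      refine Or.inr ⟨a, funext fun b => Bool.eq_iff_iff.2 ?_⟩
      rw [decide_eq_true_eq]
      exact ⟨fun hb => ((h a b ha).2 hb.1).2 hb.2,
        fun hb => ⟨hmax b hb, ((h a b ha).2 (hmax b hb)).1 hb⟩⟩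
    · exact Or.inl (funext fun a => by simpa using not_exists.1 h1 a)
  · rw [chain_iff] at ha
    refine ⟨ha ▸ hf _, fun hb => ?_⟩
    rw [chain_iff, ha, sgn_take f hb]

end Pool.Agent.Lib.MP_4b35b9_lc.Rel
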