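import Pool.Agent.Shared.Oracle.RE
import Pool.Agent.Lib.MP_4b35b9_lc.Defs

/-!
Every hyperarithmetic real is computable from a real that is the only solution of a condition
of the form `∀ m, ∃ k, q m (O|k)`: the set of won positions of a game on two trees.
-/

namespace Pool.Agent.Lib.MP_4b35b9_lc.Rel

open Pool.Agent.Shared.Oracle Encodable

theorem mono_normal {p : ℕ × List Bool → Prop} (hp : REPred p) :
    ∃ q : ℕ → List Bool → Prop, PrimrecRel q ∧ (∀ m σ σ', σ <+: σ' → q m σ → q m σ') ∧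
      ∀ (O : ℕ → Bool) m, (∃ k, q m (seg O k)) ↔ ∃ k, p (m, seg O k) := by
  obtain ⟨r, hr, e⟩ := re_normal hp
  refine ⟨fun m σ => ∃ j < σ.length + 1, ∃ t < σ.length + 1, r (m, σ.take j) t, ?_, ?_,
    fun O m => ?_⟩
  · have h1 : PrimrecRel fun (t : ℕ) (z : ℕ × ℕ × List Bool) => r (z.2.1, z.2.2.take z.1) t :=
      hr.comp ((Primrec.fst.comp (Primrec.snd.comp Primrec.snd)).pair (Primrec.list_take.comp
        (Primrec.fst.comp Primrec.snd) (Primrec.snd.comp (Primrec.snd.comp Primrec.snd))))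
        Primrec.fst
    have h2 := prim_exists_lt (Primrec.succ.comp (Primrec.list_length.comp
      (Primrec.snd.comp (Primrec.snd (α := ℕ) (β := ℕ × List Bool))))) h1
    exact prim_exists_lt (R := fun (j : ℕ) (z : ℕ × List Bool) =>
      ∃ t < z.2.length + 1, r (z.1, z.2.take j) t)
      (Primrec.succ.comp (Primrec.list_length.comp Primrec.snd)) h2
  · rintro m σ _ ⟨τ, rfl⟩ ⟨j, hj, t, ht, h⟩
    refine ⟨j, by simp; omega, t, by simp; omega, ?_⟩
    rwa [List.take_append_of_le_length (by omega)]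
  · simp only [seg_length, e]
    constructor
    · rintro ⟨k, j, hj, t, -, h⟩
      rw [seg_take O (by omega)] at h
      exact ⟨j, t, h⟩
    · rintro ⟨k, t, h⟩
      refine ⟨k + t, k, by omega, t, by omega, ?_⟩
      rwa [seg_take O (by omega)]

/-- All initial segments of `s` satisfy `T`, or `s` is empty. -/
def Al (T : ℕ × List ℕ → Prop) (n : ℕ) (s : List ℕ) : Prop :=
  s = [] ∨ ∀ k < s.length + 1, T (n, s.take k)

theorem comp_al {T : ℕ × List ℕ → Prop} (hT : ComputablePred T) :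
    ∃ v : ℕ × List ℕ → Bool, Computable v ∧ ∀ n s, v (n, s) = true ↔ Al T n s := by
  classical
  obtain ⟨_, h0⟩ := hT
  have h1 : Primrec fun y : (ℕ × List ℕ) × ℕ × Bool => (y.1.1, y.1.2.take y.2.1) :=
    (Primrec.fst.comp Primrec.fst).pair
      (Primrec.list_take.comp (Primrec.fst.comp Primrec.snd) (Primrec.snd.comp Primrec.fst))
  have h2 := Primrec.and.to_comp.comp (Primrec.snd.comp Primrec.snd).to_comp (h0.comp h1.to_comp)
  have h3 := Computable.nat_rec (f := fun p : ℕ × List ℕ => p.2.length + 1) (g := fun _ => true)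
    (h := fun (p : ℕ × List ℕ) (y : ℕ × Bool) => y.2 && decide (T (p.1, p.2.take y.1)))
    (Primrec.succ.comp (Primrec.list_length.comp Primrec.snd)).to_comp (Computable.const _) h2
  have h4 := Primrec.or.to_comp.comp (Primrec.eq.comp (Primrec.snd (α := ℕ) (β := List ℕ))
    (Primrec.const [])).decide.to_comp h3
  refine ⟨_, h4, fun n s => ?_⟩
  have h5 : ∀ j : ℕ, (Nat.rec (motive := fun _ => Bool) true
      (fun y IH => IH && decide (T (n, s.take y))) j = true) ↔ ∀ k < j, T (n, s.take k) := by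
    intro j
    induction j with
    | zero => simp
    | succ j ih => simp only [Bool.and_eq_true, ih, decide_eq_true_eq, Nat.forall_lt_succ_right]
  rw [Bool.or_eq_true, decide_eq_true_eq]
  exact or_congr Iff.rfl (h5 (s.length + 1))

theorem al_path {T : ℕ × List ℕ → Prop} {n : ℕ} {f : ℕ → ℕ}
    (h : ∀ k, T (n, (List.range k).map f)) (k : ℕ) : Al T n ((List.range k).map f) := by
  refine Or.inr fun j hj => ?_
  rw [List.length_map, List.length_range] at hj
  rw [← List.map_take, List.take_range, min_eq_left (by omega)]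
  exact h j

theorem path_of_chain {T : ℕ × List ℕ → Prop} {n : ℕ} (S : ℕ → List ℕ)
    (h1 : ∀ k, ∃ x, S (k + 1) = S k ++ [x]) (h2 : ∀ k, Al T n (S k)) :
    ∃ f : ℕ → ℕ, ∀ k, T (n, (List.range k).map f) := by
  have h3 : ∀ k, k ≤ (S k).length := by
    intro k
    induction k with
    | zero => exact Nat.zero_le _
    | succ k ih =>
      obtain ⟨x, hx⟩ := h1 k
      rw [hx]
      simpa using ih
  have h4 : ∀ k, (List.range k).map (fun i => (S (i + 1)).getD i 0) = (S k).take k := by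
    intro k
    induction k with
    | zero => simp
    | succ k ih =>
      obtain ⟨x, hx⟩ := h1 k
      have h5 := h3 (k + 1)
      rw [List.range_succ, List.map_append, ih, List.take_add_one, hx,
        List.take_append_of_le_length (h3 k), ← hx]
      simp [List.getElem?_eq_getElem (show k < (S (k + 1)).length from h5)]
  refine ⟨fun i => (S (i + 1)).getD i 0, fun k => ?_⟩
  rw [h4]
  obtain ⟨x, hx⟩ := h1 k
  rcases h2 (k + 1) with h | h
  · simp [hx] at h
  · have h5 := h k (by have := h3 (k + 1); omega)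
    rwa [hx, List.take_append_of_le_length (h3 k)] at h5

theorem no_chain {T₁ T₀ : ℕ × List ℕ → Prop} {n : ℕ}
    (hn : ¬ ((∃ f : ℕ → ℕ, ∀ k, T₁ (n, (List.range k).map f)) ∧
      ∃ f : ℕ → ℕ, ∀ k, T₀ (n, (List.range k).map f)))
    (D : List ℕ → List ℕ → Prop) (h1 : ∀ s t, D s t → Al T₁ n s ∧ Al T₀ n t)
    (h2 : ∀ s t, D s t → ∃ x y, D (s ++ [x]) (t ++ [y])) (s t : List ℕ) : ¬ D s t := by
  intro h0
  choose! X Y hXY using h2
  let S : ℕ → List ℕ × List ℕ := fun k =>
    Nat.rec (s, t) (fun _ p => (p.1 ++ [X p.1 p.2], p.2 ++ [Y p.1 p.2])) k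
  have h3 : ∀ k, D (S k).1 (S k).2 := by
    intro k
    induction k with
    | zero => exact h0
    | succ k ih => exact hXY _ _ ih
  exact hn ⟨path_of_chain (fun k => (S k).1) (fun k => ⟨_, rfl⟩) fun k => (h1 _ _ (h3 k)).1,
    path_of_chain (fun k => (S k).2) (fun k => ⟨_, rfl⟩) fun k => (h1 _ _ (h3 k)).2⟩

/-- Positions of the game. -/
abbrev Ps := Bool × ℕ × List ℕ × List ℕ

/-- A move. -/
def mv (p : Ps) (x : ℕ) : Ps :=
  cond p.1 (false, p.2.1, p.2.2.1 ++ [x], p.2.2.2) (true, p.2.1, p.2.2.1, p.2.2.2 ++ [x])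

theorem prim_mv : Primrec₂ mv := by
  have a : Primrec fun y : Ps × ℕ => y.1.2.1 := Primrec.fst.comp (Primrec.snd.comp Primrec.fst)
  have b : Primrec fun y : Ps × ℕ => y.1.2.2.1 :=
    Primrec.fst.comp (Primrec.snd.comp (Primrec.snd.comp Primrec.fst))
  have c : Primrec fun y : Ps × ℕ => y.1.2.2.2 :=
    Primrec.snd.comp (Primrec.snd.comp (Primrec.snd.comp Primrec.fst))
  have h := Primrec.cond (Primrec.fst.comp Primrec.fst)
    ((Primrec.const false).pair (a.pair ((Primrec.list_concat.comp b Primrec.snd).pair c)))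
    ((Primrec.const true).pair (a.pair (b.pair (Primrec.list_concat.comp c Primrec.snd))))
  exact h

/-- The recursion for the won positions. -/
def Eqn (V R : Ps → Prop) : Prop :=
  ∀ p, R p ↔ V p ∧ (p.1 = true → ∀ x, V (mv p x) → R (mv p x)) ∧ (p.1 = false → ∃ y, R (mv p y))

theorem exists_eqn (V : Ps → Prop) : ∃ R, Eqn V R := by
  let Φ : (Ps → Prop) →o (Ps → Prop) := ⟨fun R p => V p ∧
    (p.1 = true → ∀ x, V (mv p x) → R (mv p x)) ∧ (p.1 = false → ∃ y, R (mv p y)),
    fun R R' h p ⟨a, b, c⟩ => ⟨a, fun h1 x h2 => h _ (b h1 x h2),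
      fun h1 => let ⟨y, hy⟩ := c h1; ⟨y, h _ hy⟩⟩⟩
  exact ⟨Φ.lfp, fun p => iff_of_eq (congrFun Φ.map_lfp.symm p)⟩

section

variable {T₁ T₀ : ℕ × List ℕ → Prop} {V R R' : Ps → Prop}
  (hV : ∀ b n s t, V (b, n, s, t) ↔ Al T₁ n s ∧ Al T₀ n t)
  (hn : ∀ n, ¬ ((∃ f : ℕ → ℕ, ∀ k, T₁ (n, (List.range k).map f)) ∧
      ∃ f : ℕ → ℕ, ∀ k, T₀ (n, (List.range k).map f)))
include hV hn

theorem eqn_le (h : Eqn V R) (h' : Eqn V R') (p : Ps) (hp : R p) : R' p := by
  have key : ∀ n s t, ¬ (R (true, n, s, t) ∧ ¬ R' (true, n, s, t)) := by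
    intro n
    refine no_chain (hn n) _ (fun s t h1 => (hV _ _ _ _).1 ((h _).1 h1.1).1) ?_
    rintro s t ⟨h1, h2⟩
    obtain ⟨a1, a2, -⟩ := (h _).1 h1
    rw [h'] at h2
    simp only [a1, true_and, forall_const, Bool.true_eq_false, false_imp_iff, and_true,
      not_forall] at h2
    obtain ⟨x, h3, h4⟩ := h2
    obtain ⟨y, hy⟩ := ((h _).1 (a2 rfl x h3)).2.2 rfl
    exact ⟨x, y, hy, fun h5 => h4 ((h' _).2 ⟨h3, by simp [mv], fun _ => ⟨y, h5⟩⟩)⟩
  obtain ⟨b, n, s, t⟩ := p
  cases b with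
  | true => exact not_not.1 fun h1 => key n s t ⟨hp, h1⟩
  | false =>
    obtain ⟨a1, -, a2⟩ := (h _).1 hp
    obtain ⟨y, hy⟩ := a2 rfl
    exact (h' _).2 ⟨a1, by simp, fun _ => ⟨y, not_not.1 fun h1 => key n s _ ⟨hy, h1⟩⟩⟩

theorem eqn_lose (h : Eqn V R) {n : ℕ} {f : ℕ → ℕ} (hf : ∀ k, T₁ (n, (List.range k).map f)) :
    ¬ R (true, n, [], []) := by
  intro h0
  refine no_chain (hn n) (fun s t => (∃ k, s = (List.range k).map f) ∧ R (true, n, s, t))
    (fun s t h1 => (hV _ _ _ _).1 ((h _).1 h1.2).1) ?_ [] [] ⟨⟨0, rfl⟩, h0⟩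
  rintro _ t ⟨⟨k, rfl⟩, h1⟩
  obtain ⟨a1, a2, -⟩ := (h _).1 h1
  have h2 : (List.range k).map f ++ [f k] = (List.range (k + 1)).map f := by
    simp [List.range_succ]
  have h3 := a2 rfl (f k) ((hV _ _ _ _).2 ⟨h2 ▸ al_path hf _, ((hV _ _ _ _).1 a1).2⟩)
  obtain ⟨y, hy⟩ := ((h _).1 h3).2.2 rfl
  exact ⟨f k, y, ⟨k + 1, h2⟩, hy⟩

theorem eqn_win (h : Eqn V R) {n : ℕ} {g : ℕ → ℕ} (hg : ∀ k, T₀ (n, (List.range k).map g)) :
    R (true, n, [], []) := by
  by_contra h0
  refine no_chain (hn n)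
    (fun s t => Al T₁ n s ∧ (∃ k, t = (List.range k).map g) ∧ ¬ R (true, n, s, t))
    ?_ ?_ [] [] ⟨Or.inl rfl, ⟨0, rfl⟩, h0⟩
  · rintro s _ ⟨h1, ⟨k, rfl⟩, -⟩
    exact ⟨h1, al_path hg _⟩
  rintro s _ ⟨h1, ⟨k, rfl⟩, h2⟩
  rw [h] at h2
  simp only [(hV _ _ _ _).2 ⟨h1, al_path hg k⟩, true_and, forall_const, Bool.true_eq_false,
    false_imp_iff, and_true, not_forall] at h2
  obtain ⟨x, h3, h4⟩ := h2
  refine ⟨x, g k, ((hV _ _ _ _).1 h3).1, ⟨k + 1, by simp [List.range_succ]⟩, fun h5 => ?_⟩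
  exact h4 ((h _).2 ⟨h3, by simp [mv], fun _ => ⟨g k, h5⟩⟩)

end

/-- Decoding of positions. -/
def dc (a : ℕ) : Ps := (decode a).getD (true, 0, [], [])

theorem prim_dc : Primrec dc := Primrec.option_getD.comp Primrec.decode (Primrec.const _)

theorem dc_encode (p : Ps) : dc (encode p) = p := by simp only [dc, encodek, Option.getD_some]

/-- The local form of the recursion. -/
def Cn (ok b vx vy ra rx ry : Bool) : Bool :=
  (!ra || ok) && (!ok || cond b ((!ra || !vx || rx) && (ra || (vy && !ry)))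
    ((!ra || ry) && (ra || !rx)))

theorem cn_iff {v : Ps → Bool} (O : ℕ → Bool) :
    (∀ a x, ∃ y, Cn (decide (encode (dc a) = a) && v (dc a)) (dc a).1 (v (mv (dc a) x))
      (v (mv (dc a) y)) (O a) (O (encode (mv (dc a) x))) (O (encode (mv (dc a) y))) = true) ↔
    (∀ a, O a = true → encode (dc a) = a) ∧
      Eqn (fun p => v p = true) fun p => O (encode p) = true := by
  constructor
  · intro h
    refine ⟨fun a ha => ?_, fun p => ?_⟩
    · obtain ⟨y, hy⟩ := h a 0
      simp only [Cn, ha, Bool.and_eq_true, Bool.not_true, Bool.false_or, decide_eq_true_eq] at hy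
      exact hy.1.1
    have h1 := h (encode p)
    simp only [dc_encode, decide_true, Bool.true_and] at h1
    constructor
    · intro hp
      obtain ⟨y, hy⟩ := h1 0
      have h2 : v p = true := by
        simp only [Cn, hp, Bool.and_eq_true, Bool.not_true, Bool.false_or] at hy
        exact hy.1
      refine ⟨h2, fun hb x hx => ?_, fun hb => ⟨y, ?_⟩⟩
      · obtain ⟨y, hy⟩ := h1 x
        simpa [Cn, hp, h2, hb, hx] using hy
      · simpa [Cn, hp, h2, hb] using hy
    · rintro ⟨h2, h3, h4⟩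
      by_contra hp
      rw [Bool.not_eq_true] at hp
      cases hb : p.1 with
      | true =>
        obtain ⟨y, hy⟩ := h1 0
        simp only [Cn, hp, h2, hb, Bool.not_false, Bool.true_or, Bool.not_true, cond_true,
          Bool.false_or, Bool.true_and, Bool.and_eq_true, Bool.not_eq_true'] at hy
        rw [h3 hb y hy.1] at hy
        exact absurd hy.2 (by simp)
      | false =>
        obtain ⟨x, hx⟩ := h4 hb
        obtain ⟨y, hy⟩ := h1 x
        simp [Cn, hp, h2, hb, hx] at hy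
  · rintro ⟨h1, h2⟩ a x
    by_cases ha : encode (dc a) = a
    swap
    · have h3 : O a = false := by simpa using fun h => ha (h1 a h)
      exact ⟨0, by simp [Cn, ha, h3]⟩
    have h3 := h2 (dc a)
    simp only [ha] at h3
    cases hr : O a with
    | true =>
      obtain ⟨a1, a2, a3⟩ := h3.1 hr
      cases hb : (dc a).1 with
      | true =>
        refine ⟨0, ?_⟩
        cases hx : v (mv (dc a) x) with
        | true => simp [Cn, ha, a1, a2 hb x hx]
        | false => simp [Cn, ha, a1]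
      | false =>
        obtain ⟨y, hy⟩ := a3 hb
        exact ⟨y, by simp [Cn, ha, a1, hy]⟩
    | false =>
      cases hv : v (dc a) with
      | false => exact ⟨0, by simp [Cn]⟩
      | true =>
        rw [hr, hv] at h3
        cases hb : (dc a).1 with
        | true =>
          simp only [hb, Bool.false_eq_true, true_and, forall_const, Bool.true_eq_false,
            false_imp_iff, and_true, false_iff, not_forall] at h3
          obtain ⟨y, a1, a2⟩ := h3
          exact ⟨y, by simp [Cn, ha, a1, a2]⟩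
        | false =>
          simp only [hb, Bool.false_eq_true, true_and, forall_const, false_imp_iff, false_iff,
            not_exists] at h3
          exact ⟨0, by simp [Cn, ha, h3 x]⟩

/-- The local condition read on a string. -/
def Lc (v : Ps → Bool) (a x y : ℕ) (σ : List Bool) : Prop :=
  (a < σ.length ∧ encode (mv (dc a) x) < σ.length ∧ encode (mv (dc a) y) < σ.length) ∧
    Cn (decide (encode (dc a) = a) && v (dc a)) (dc a).1 (v (mv (dc a) x)) (v (mv (dc a) y))
      (σ.getD a false) (σ.getD (encode (mv (dc a) x)) false)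
      (σ.getD (encode (mv (dc a) y)) false) = true

theorem lc_seg (v : Ps → Bool) (a x y k : ℕ) (O : ℕ → Bool) : Lc v a x y (seg O k) ↔
    (a < k ∧ encode (mv (dc a) x) < k ∧ encode (mv (dc a) y) < k) ∧
      Cn (decide (encode (dc a) = a) && v (dc a)) (dc a).1 (v (mv (dc a) x))
        (v (mv (dc a) y)) (O a) (O (encode (mv (dc a) x))) (O (encode (mv (dc a) y))) = true := by
  have hseg : ∀ i, i < k → (seg O k).getD i false = O i := by
    intro i hi
    simp [seg, hi]
  rw [Lc, seg_length]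
  refine and_congr_right fun h => ?_
  rw [hseg _ h.1, hseg _ h.2.1, hseg _ h.2.2]

theorem lc_iff (v : Ps → Bool) (O : ℕ → Bool) :
    (∀ m : ℕ, ∃ k, Lc v m.unpair.1 m.unpair.2 (seg O k).length.unpair.1 (seg O k)) ↔
    ∀ a x, ∃ y, Cn (decide (encode (dc a) = a) && v (dc a)) (dc a).1 (v (mv (dc a) x))
      (v (mv (dc a) y)) (O a) (O (encode (mv (dc a) x))) (O (encode (mv (dc a) y))) = true := by
  constructor
  · intro h a x
    obtain ⟨k, hk⟩ := h (Nat.pair a x)
    rw [Nat.unpair_pair] at hk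
    exact ⟨_, ((lc_seg _ _ _ _ _ _).1 hk).2⟩
  · intro h m
    generalize m.unpair.1 = a
    generalize m.unpair.2 = x
    obtain ⟨y, hy⟩ := h a x
    obtain ⟨N, hN⟩ : ∃ N, a < N ∧ encode (mv (dc a) x) < N ∧ encode (mv (dc a) y) < N :=
      ⟨a + encode (mv (dc a) x) + encode (mv (dc a) y) + 1, by omega⟩
    have b1 := Nat.right_le_pair y N
    refine ⟨Nat.pair y N, ?_⟩
    rw [seg_length, Nat.unpair_pair]
    exact (lc_seg v a x y _ O).2 ⟨by omega, hy⟩

theorem exists_singleton {Z : ℕ → Bool} (hZ : Delta11 Z) :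
    ∃ (O : ℕ → Bool) (q : ℕ → List Bool → Prop), PrimrecRel q ∧
      (∀ m σ σ', σ <+: σ' → q m σ → q m σ') ∧
      (∀ O', (∀ m, ∃ k, q m (seg O' k)) ↔ O' = O) ∧ ComputableIn {orc O} Z := by
  classical
  obtain ⟨⟨T₁, c₁, e₁⟩, T₀, c₀, e₀⟩ := hZ
  simp only [Set.mem_ofPred_eq] at e₁ e₀
  obtain ⟨v₁, d₁, g₁⟩ := comp_al c₁
  obtain ⟨v₀, d₀, g₀⟩ := comp_al c₀
  let v : Ps → Bool := fun p => v₁ (p.2.1, p.2.2.1) && v₀ (p.2.1, p.2.2.2)
  have hv : Computable v := by
    have a : Primrec fun p : Ps => (p.2.1, p.2.2.1) := (Primrec.fst.comp Primrec.snd).pair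
      (Primrec.fst.comp (Primrec.snd.comp Primrec.snd))
    have b : Primrec fun p : Ps => (p.2.1, p.2.2.2) := (Primrec.fst.comp Primrec.snd).pair
      (Primrec.snd.comp (Primrec.snd.comp Primrec.snd))
    have c := Primrec.and.to_comp.comp (d₁.comp a.to_comp) (d₀.comp b.to_comp)
    exact c
  have hV : ∀ b n s t, v (b, n, s, t) = true ↔ Al T₁ n s ∧ Al T₀ n t := fun b n s t => by
    simp only [v, Bool.and_eq_true, g₁, g₀]
  have hn : ∀ n, ¬ ((∃ f : ℕ → ℕ, ∀ k, T₁ (n, (List.range k).map f)) ∧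
      ∃ f : ℕ → ℕ, ∀ k, T₀ (n, (List.range k).map f)) := fun n h => by
    have h1 := (e₁ n).2 h.1
    rw [(e₀ n).2 h.2] at h1
    exact absurd h1 (by simp)
  obtain ⟨R, hR⟩ := exists_eqn fun p => v p = true
  let O : ℕ → Bool := fun a => decide (encode (dc a) = a ∧ R (dc a))
  have hO : (fun p => O (encode p) = true) = R := by
    funext p
    simp only [O, dc_encode, true_and, decide_eq_true_eq]
  have hp : REPred fun z : ℕ × List Bool =>
      Lc v z.1.unpair.1 z.1.unpair.2 z.2.length.unpair.1 z.2 := by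
    have a : Primrec fun z : ℕ × List Bool => z.1.unpair.1 :=
      Primrec.fst.comp (Primrec.unpair.comp Primrec.fst)
    have l : Primrec fun z : ℕ × List Bool => z.2.length := Primrec.list_length.comp Primrec.snd
    have d := prim_dc.comp a
    have x := prim_mv.comp d (Primrec.snd.comp (Primrec.unpair.comp Primrec.fst))
    have y := prim_mv.comp d (Primrec.fst.comp (Primrec.unpair.comp l))
    have h1 := (Primrec.nat_lt.comp a l).and ((Primrec.nat_lt.comp (Primrec.encode.comp x) l).and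
      (Primrec.nat_lt.comp (Primrec.encode.comp y) l))
    have h2 : Primrec fun w : Bool × Bool × Bool × Bool × Bool × Bool × Bool =>
        Cn w.1 w.2.1 w.2.2.1 w.2.2.2.1 w.2.2.2.2.1 w.2.2.2.2.2.1 w.2.2.2.2.2.2 :=
      Primrec.dom_finite _
    have h3 := Primrec.and.to_comp.comp
      (Primrec.eq.comp (Primrec.encode.comp d) a).decide.to_comp (hv.comp d.to_comp)
    have h4 := ((Primrec.list_getD false).comp Primrec.snd a).pair
      (((Primrec.list_getD false).comp Primrec.snd (Primrec.encode.comp x)).pair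
        ((Primrec.list_getD false).comp Primrec.snd (Primrec.encode.comp y)))
    have h5 := h2.to_comp.comp (h3.pair ((Primrec.fst.comp d).to_comp.pair
      ((hv.comp x.to_comp).pair ((hv.comp y.to_comp).pair h4.to_comp))))
    have h6 := re_comp (re_of_prim (prim_true Primrec.id)) h5
    exact re_and (re_of_prim h1) h6
  obtain ⟨q, q1, q2, q3⟩ := mono_normal hp
  refine ⟨O, q, q1, q2, fun O' => ?_, ?_⟩
  · rw [forall_congr' (q3 O'), lc_iff, cn_iff]
    constructor
    · rintro ⟨h2, h3⟩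
      funext a
      rw [Bool.eq_iff_iff]
      simp only [O, decide_eq_true_eq]
      refine ⟨fun h => ⟨h2 a h, eqn_le hV hn h3 hR (dc a) ((congrArg O' (h2 a h)).trans h)⟩,
        fun h => ?_⟩
      exact (congrArg O' h.1).symm.trans (eqn_le hV hn hR h3 (dc a) h.2)
    · intro h
      rw [h, hO]
      exact ⟨fun a ha => (of_decide_eq_true ha).1, hR⟩
  · have h1 : Primrec fun n : ℕ => encode ((true, n, [], []) : Ps) :=
      Primrec.encode.comp ((Primrec.const true).pair (Primrec.id.pair (Primrec.const _)))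
    have h2 := cin_comp Primrec.not.computableIn
      (cin_comp (cin_orc (X := O) (O := {orc O}) rfl) h1.computableIn)
    refine cin_of_eq h2 fun n => ?_
    have h3 := congrFun hO (true, n, [], [])
    cases hz : Z n with
    | true =>
      obtain ⟨f, hf⟩ := (e₁ n).1 hz
      have h4 := eqn_lose hV hn hR hf
      rw [← h3] at h4
      exact congrArg not (Bool.eq_false_iff.2 h4)
    | false =>
      obtain ⟨f, hf⟩ := (e₀ n).1 hz
      have h4 := eqn_win hV hn hR hf
      rw [← h3] at h4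
      exact congrArg not h4

end Pool.Agent.Lib.MP_4b35b9_lc.Rel
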