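import Pool.Agent.Lib.MP_4b35b9_lc.Rel.Chain
import Pool.Agent.Lib.MP_4b35b9_lc.Rel.Game

/-!
Above every hyperarithmetic real there is a hyperarithmetic real that is never continuously random
and whose degree has no self-modulus.
-/

namespace Pool.Agent.Lib.MP_4b35b9_lc.Rel

open Pool.Agent.Shared.Oracle Encodable

/-- The bits of weight `c` of a list of numbers. -/
def bt (c : ℕ) (s : List ℕ) : List Bool := s.map fun x => decide (x / c % 2 = 1)

/-- The bits of weight `c` of a sequence of numbers. -/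
def fb (c : ℕ) (f : ℕ → ℕ) (i : ℕ) : Bool := decide (f i / c % 2 = 1)

theorem prim_bit (c : ℕ) : Primrec fun x : ℕ => decide (x / c % 2 = 1) :=
  (Primrec.eq.comp (Primrec.nat_mod.comp (Primrec.nat_div.comp Primrec.id (.const c)) (.const 2))
    (.const 1)).decide

theorem prim_bt (c : ℕ) : Primrec (bt c) :=
  Primrec.list_map Primrec.id ((prim_bit c).comp Primrec.snd).to₂

theorem bt_sgn (c : ℕ) (f : ℕ → ℕ) (k : ℕ) : bt c (sgn f k) = seg (fb c f) k := by
  simp only [bt, sgn, seg, List.map_map]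
  rfl

theorem bt_surj (ρ : List Bool) : ∃ a, bt 1 (ls a) = ρ := by
  refine ⟨encode (ρ.map Bool.toNat), ?_⟩
  rw [ls_encode, bt, List.map_map]
  conv_rhs => rw [← List.map_id ρ]
  exact List.map_congr_left fun b _ => by cases b <;> rfl

theorem Run.mem_P_iff {O : ℕ → Bool} {e : ℕ} (R : Run O e) {Z : ℕ → Bool} :
    Z ∈ R.P ↔ ∀ k, ∃ ρ ∈ R.L k, ρ.take k = seg Z k := by
  constructor
  · intro hX k
    obtain ⟨ρ, h3, h4⟩ := hX k
    have h5 := List.prefix_iff_eq_take.1 (h4.seg_prefix' (R.le_length k ρ h3))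
    rw [seg_length] at h5
    exact ⟨ρ, h3, h5.symm⟩
  · intro hf j
    obtain ⟨C, hC⟩ := ((List.finite_toSet (R.L j)).image List.length).bddAbove
    obtain ⟨ρ', h1, h2⟩ := hf (j + C)
    obtain ⟨ρ, h3, τ, rfl⟩ := R.cover_le (Nat.le_add_right j C) ρ' h1
    have h4 : ρ.length ≤ C := hC ⟨ρ, h3, rfl⟩
    refine ⟨ρ, h3, ?_⟩
    unfold Pre
    rw [← seg_take Z (show ρ.length ≤ j + C by omega), ← h2, List.take_take,
      min_eq_left (by omega), List.take_left']
    rfl

theorem countable_cin (O : ℕ → Bool) : {Z : ℕ → Bool | ComputableIn {orc O} Z}.Countable := by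
  refine (Set.countable_iUnion fun e : ℕ => (show {Z | Cd O e Z}.Subsingleton from
    fun Z h Z' h' => ?_).countable).mono fun Z hZ => Set.mem_iUnion.2 (exists_cd hZ)
  funext i
  have h1 : Pre (seg Z (i + 1)) Z := congrArg (seg Z) (seg_length Z _)
  have h2 : Pre (seg Z (i + 1)) Z' := by
    by_contra h2
    exact (h _ 0).2 ((h' _ 0).1 h2) h1
  rw [Pre, seg_length] at h2
  exact (seg_congr.1 h2 i (Nat.lt_succ_self i)).symm

/-- The tree on the natural numbers: a solution of the condition `q` with its least witnesses,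
and a member of the class relative to it. -/
def Tr (q : ℕ → List Bool → Prop) (s : List ℕ) : Prop :=
  (∃ ρ ∈ (stL (bt 2 s) s.length).2, ρ.take s.length = bt 1 s) ∧
    ∀ n < s.length, ∀ j < s.length + 1, (q n ((bt 2 s).take j) ↔ s.getD n 0 / 4 ≤ j)

theorem prim_Tr {q : ℕ → List Bool → Prop} (hq : PrimrecRel q) : PrimrecPred (Tr q) := by
  have h1 : PrimrecRel fun (ρ : List Bool) (s : List ℕ) => ρ.take s.length = bt 1 s :=
    Primrec.eq.comp (Primrec.list_take.comp (Primrec.list_length.comp Primrec.snd) Primrec.fst)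
      ((prim_bt 1).comp Primrec.snd)
  have h2 := h1.exists_mem_list.comp
    (Primrec.snd.comp (prim_stL.comp (prim_bt 2) Primrec.list_length)) Primrec.id
  have s : Primrec fun z : ℕ × ℕ × List ℕ => z.2.2 := Primrec.snd.comp Primrec.snd
  have n : Primrec fun z : ℕ × ℕ × List ℕ => z.2.1 := Primrec.fst.comp Primrec.snd
  have h3 := hq.comp n (Primrec.list_take.comp Primrec.fst ((prim_bt 2).comp s))
  have h4 := Primrec.nat_le.comp (Primrec.nat_div.comp ((Primrec.list_getD 0).comp s n) (.const 4))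
    Primrec.fst
  have h5 := prim_forall_lt (R := fun (j : ℕ) (y : ℕ × List ℕ) =>
    (q y.1 ((bt 2 y.2).take j) ↔ y.2.getD y.1 0 / 4 ≤ j))
    (Primrec.succ.comp (Primrec.list_length.comp Primrec.snd))
    (((prim_imp h3 h4).and (prim_imp h4 h3)).of_eq fun z => by simp only [← iff_def])
  have h6 := prim_forall_lt (R := fun (n : ℕ) (s : List ℕ) => ∀ j < s.length + 1,
    (q n ((bt 2 s).take j) ↔ s.getD n 0 / 4 ≤ j)) Primrec.list_length h5
  exact h2.and h6

theorem tr_iff {q : ℕ → List Bool → Prop} {f : ℕ → ℕ} : (∀ k, Tr q (sgn f k)) ↔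
    fb 1 f ∈ (top (fb 2 f)).P ∧ ∀ n j, (q n (seg (fb 2 f) j) ↔ f n / 4 ≤ j) := by
  simp only [Tr, bt_sgn, sgn_length, forall_and, Run.mem_P_iff]
  refine and_congr Iff.rfl ⟨fun h n j => ?_, fun h k n hn j hj => ?_⟩
  · have := h (n + j + 1) n (by omega) j (by omega)
    rwa [seg_take _ (by omega), sgn_getD _ (by omega)] at this
  · rw [seg_take _ (by omega), sgn_getD _ hn]
    exact h n j

/-- The witness `c` shows, as far as the strings `σ`, `τ` tell, that the family `e` fails. -/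
def Dw (e c : ℕ) (σ τ : List Bool) : Prop :=
  (bt 1 (ls c.unpair.1)).length ≤ τ.length → c.unpair.2.unpair.2 ≤ τ.length →
    (¬ τ.take (bt 1 (ls c.unpair.1)).length = bt 1 (ls c.unpair.1) ∧
      W e c.unpair.2.unpair.1 σ (bt 1 (ls c.unpair.1)) = false) ∨
    (τ.take (bt 1 (ls c.unpair.1)).length = bt 1 (ls c.unpair.1) ∧
      W e c.unpair.2.unpair.1 (σ.take c.unpair.2.unpair.2) (bt 1 (ls c.unpair.1)) = true)

theorem prim_Dw : PrimrecPred fun z : (ℕ × ℕ) × List Bool × List Bool =>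
    Dw z.1.1 z.1.2 z.2.1 z.2.2 := by
  have e : Primrec fun z : (ℕ × ℕ) × List Bool × List Bool => z.1.1 := Primrec.fst.comp Primrec.fst
  have c : Primrec fun z : (ℕ × ℕ) × List Bool × List Bool => z.1.2.unpair :=
    Primrec.unpair.comp (Primrec.snd.comp Primrec.fst)
  have σ : Primrec fun z : (ℕ × ℕ) × List Bool × List Bool => z.2.1 := Primrec.fst.comp Primrec.snd
  have τ : Primrec fun z : (ℕ × ℕ) × List Bool × List Bool => z.2.2 := Primrec.snd.comp Primrec.snd
  have ρ := (prim_bt 1).comp (prim_ls.comp (Primrec.fst.comp c))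
  have u := Primrec.unpair.comp (Primrec.snd.comp c)
  have h1 := Primrec.eq.comp (Primrec.list_take.comp (Primrec.list_length.comp ρ) τ) ρ
  have h2 := prim_W.comp ((e.pair ((Primrec.fst.comp u).pair σ)).pair ρ)
  have h3 := prim_W.comp ((e.pair ((Primrec.fst.comp u).pair
    (Primrec.list_take.comp (Primrec.snd.comp u) σ))).pair ρ)
  have h4 := prim_imp (Primrec.nat_le.comp (Primrec.list_length.comp ρ) (Primrec.list_length.comp τ))
    (prim_imp (Primrec.nat_le.comp (Primrec.snd.comp u) (Primrec.list_length.comp τ))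
      ((h1.not.and (Primrec.eq.comp h2 (.const false))).or (h1.and (prim_true h3))))
  exact h4

theorem dw_iff (O Y : ℕ → Bool) (e : ℕ) (k₀ : ℕ) :
    (∃ c, ∀ k > k₀, Dw e c (seg O k) (seg Y k)) ↔ ¬ Cd O e Y := by
  constructor
  · rintro ⟨c, hc⟩ h
    unfold Dw at hc
    generalize bt 1 (ls c.unpair.1) = ρ at hc
    generalize c.unpair.2.unpair.1 = n at hc
    generalize c.unpair.2.unpair.2 = t at hc
    have h1 : ∀ k, ρ.length + t + k₀ < k → (¬ Pre ρ Y ∧ W e n (seg O k) ρ = false) ∨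
        (Pre ρ Y ∧ W e n (seg O t) ρ = true) := fun k hk => by
      have := hc k (by omega) (by rw [seg_length]; omega) (by rw [seg_length]; omega)
      rwa [seg_take Y (by omega), seg_take O (by omega)] at this
    by_cases h2 : Pre ρ Y
    · exact (h ρ n).2 ⟨t, ((h1 _ (Nat.lt_succ_self _)).resolve_left fun h3 => h3.1 h2).2⟩ h2
    · obtain ⟨t', h3⟩ := (h ρ n).1 h2
      have h4 := ((h1 (ρ.length + t + k₀ + t' + 1) (by omega)).resolve_right fun h3 => h2 h3.1).2
      rw [W_mono (seg_prefix O (by omega)) (List.prefix_refl _) h3] at h4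
      exact absurd h4 (by simp)
  · intro h
    obtain ⟨ρ, h⟩ := not_forall.1 h
    obtain ⟨n, h⟩ := not_forall.1 h
    obtain ⟨a, rfl⟩ := bt_surj ρ
    by_cases h2 : Pre (bt 1 (ls a)) Y
    · obtain ⟨t, ht⟩ : ∃ t, W e n (seg O t) (bt 1 (ls a)) = true := by
        by_contra h3
        exact h ⟨fun h4 => absurd h2 h4, fun h4 => absurd h4 h3⟩
      refine ⟨Nat.pair a (Nat.pair n t), fun k _ => ?_⟩
      simp only [Dw, Nat.unpair_pair, seg_length]
      intro h3 h4
      rw [seg_take Y h3, seg_take O h4]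
      exact Or.inr ⟨h2, ht⟩
    · refine ⟨Nat.pair a (Nat.pair n 0), fun k _ => ?_⟩
      simp only [Dw, Nat.unpair_pair, seg_length]
      intro h3 _
      rw [seg_take Y h3]
      refine Or.inl ⟨h2, Bool.eq_false_iff.2 fun h4 => h ⟨fun _ => ⟨k, h4⟩, fun _ => h2⟩⟩

theorem sigma11_pair {A : Set ℕ} {S : ℕ × List ℕ × List ℕ → Prop} (hS : PrimrecPred S)
    (h : ∀ n, n ∈ A ↔ ∃ f g : ℕ → ℕ, ∀ k, S (n, sgn f k, sgn g k)) : Sigma11 A := by
  have h1 : Primrec fun s : List ℕ => s.map fun x => x.unpair.1 := Primrec.list_map Primrec.id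
    (Primrec.fst.comp (Primrec.unpair.comp Primrec.snd)).to₂
  have h2 : Primrec fun s : List ℕ => s.map fun x => x.unpair.2 := Primrec.list_map Primrec.id
    (Primrec.snd.comp (Primrec.unpair.comp Primrec.snd)).to₂
  have h3 := hS.comp (Primrec.fst.pair ((h1.comp (Primrec.snd (α := ℕ))).pair (h2.comp Primrec.snd)))
  refine ⟨_, h3.computablePred, fun n => (h n).trans ?_⟩
  simp only [List.map_map]
  constructor
  · rintro ⟨f, g, hf⟩
    refine ⟨fun i => Nat.pair (f i) (g i), fun k => ?_⟩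
    simpa only [Function.comp_def, Nat.unpair_pair, sgn] using hf k
  · rintro ⟨f, hf⟩
    exact ⟨_, _, hf⟩

theorem sigma11_chain {T : List ℕ → Prop} (hT : PrimrecPred T) {f : ℕ → ℕ}
    (hu : ∀ f', ((∀ k, T (sgn f' k)) ∧ ∀ e, ¬ Cd (fb 2 f') e (fb 1 f')) ↔ f' = f) (b : Bool) :
    Sigma11 {n | chain f n = b} := by
  have s : Primrec fun z : ℕ × List ℕ × List ℕ => z.2.1 := Primrec.fst.comp Primrec.snd
  have h1 : PrimrecRel fun (e : ℕ) (y : List ℕ × List ℕ) =>
      Dw e (y.2.getD e 0) (bt 2 y.1) (bt 1 y.1) := by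
    have := prim_Dw.comp ((Primrec.fst.pair ((Primrec.list_getD 0).comp
      (Primrec.snd.comp Primrec.snd) Primrec.fst)).pair
        (((prim_bt 2).comp s).pair ((prim_bt 1).comp s)))
    exact this
  have h2 := (prim_forall_lt (Primrec.list_length.comp Primrec.fst) h1).comp
    (Primrec.snd (α := ℕ))
  have l := prim_ls.comp (Primrec.fst (β := List ℕ × List ℕ))
  have h3 := prim_imp (Primrec.nat_le.comp (Primrec.list_length.comp l) (Primrec.list_length.comp s))
    (Primrec.eq.comp (Primrec.eq.comp l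
      (Primrec.list_take.comp (Primrec.list_length.comp l) s)).decide (.const b))
  refine sigma11_pair (((hT.comp s).and h2).and h3) fun n => ?_
  simp only [Set.mem_ofPred_eq, sgn_length, bt_sgn]
  constructor
  · intro hn
    obtain ⟨a1, a2⟩ := (hu f).2 rfl
    choose g hg using fun e => (dw_iff _ _ e e).2 (a2 e)
    refine ⟨f, g, fun k => ⟨⟨a1 k, fun e he => ?_⟩, fun h => ?_⟩⟩
    · rw [sgn_getD g he]
      exact hg e k he
    · rw [sgn_take f h, ← hn, chain]
  · rintro ⟨f', g, h⟩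
    obtain rfl := (hu f').1 ⟨fun k => (h k).1.1, fun e => (dw_iff _ _ e e).1 ⟨g e, fun k hk => by
      have := (h k).1.2 e hk
      rwa [sgn_getD g hk] at this⟩⟩
    have := (h _).2 le_rfl
    rw [sgn_take f' le_rfl] at this
    rw [← this, chain]

theorem digits (k : ℕ) (x y : Bool) :
    decide ((4 * k + 2 * x.toNat + y.toNat) / 1 % 2 = 1) = y ∧
      decide ((4 * k + 2 * x.toNat + y.toNat) / 2 % 2 = 1) = x ∧
        (4 * k + 2 * x.toNat + y.toNat) / 4 = k := by
  cases x <;> cases y <;> simp <;> omega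

theorem main {Z : ℕ → Bool} (hZ : Delta11 Z) : ∃ X : ℕ → Bool, Delta11 X ∧ NCR X ∧
    TuringReducible (chi Z) (chi X) ∧
      ∀ Y, TuringEquivalent (chi Y) (chi X) → ¬ HasSelfModulus Y := by
  classical
  obtain ⟨O, q, q1, q2, q3, q4⟩ := exists_singleton hZ
  obtain ⟨Y, y1, y2, y3, y4⟩ := exists_real O
  have hex : ∀ n, ∃ k, decide (q n (seg O k)) = true := fun n => by simpa using (q3 O).2 rfl n
  let cd : (ℕ → Bool) → ℕ → ℕ := fun Y' i => 4 * Nat.find (hex i) + 2 * (O i).toNat + (Y' i).toNat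
  have c1 : ∀ Y', fb 1 (cd Y') = Y' := fun Y' => funext fun i => (digits _ _ _).1
  have c2 : ∀ Y', fb 2 (cd Y') = O := fun Y' => funext fun i => (digits _ _ _).2.1
  have c4 : ∀ Y' i, cd Y' i / 4 = Nat.find (hex i) := fun Y' i => (digits _ _ _).2.2
  have hk : ∀ n j, q n (seg O j) ↔ Nat.find (hex n) ≤ j := fun n j =>
    ⟨fun h => Nat.find_min' _ (by simpa using h),
      fun h => q2 n _ _ (seg_prefix O h) (of_decide_eq_true (Nat.find_spec (hex n)))⟩
  have hT : ∀ f, (∀ k, Tr q (sgn f k)) ↔ ∃ Y' ∈ (top O).P, cd Y' = f := fun f => by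
    rw [tr_iff]
    constructor
    · rintro ⟨h1, h2⟩
      have h3 : fb 2 f = O := (q3 _).1 fun m => ⟨_, (h2 m _).2 le_rfl⟩
      rw [h3] at h1 h2
      refine ⟨_, h1, funext fun i => ?_⟩
      have h4 : Nat.find (hex i) = f i / 4 :=
        le_antisymm ((hk _ _).1 ((h2 _ _).2 le_rfl)) ((h2 _ _).1 ((hk _ _).2 le_rfl))
      simp only [cd, h4]
      rw [← h3]
      simp only [fb]
      by_cases a1 : f i / 2 % 2 = 1 <;> by_cases a2 : f i / 1 % 2 = 1 <;>
        simp only [a1, a2, decide_true, decide_false, Bool.toNat_true, Bool.toNat_false] <;> omega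
    · rintro ⟨Y', h1, rfl⟩
      rw [c1, c2]
      exact ⟨h1, fun n j => by rw [c4, hk]⟩
  have hu : ∀ f', ((∀ k, Tr q (sgn f' k)) ∧ ∀ e, ¬ Cd (fb 2 f') e (fb 1 f')) ↔ f' = cd Y := by
    intro f'
    rw [hT]
    constructor
    · rintro ⟨⟨Y', h1, rfl⟩, h2⟩
      rw [c1, c2] at h2
      rw [(y3 Y' h1).resolve_right fun h => let ⟨e, he⟩ := exists_cd h; h2 e he]
    · rintro rfl
      rw [c1, c2]
      exact ⟨⟨Y, y1, rfl⟩, y2⟩
  have hf := cin_of_chain (cd Y)
  have hO : ComputableIn {orc (chain (cd Y))} O :=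
    cin_of_eq (cin_prim (prim_bit 2) hf) (congrFun (c2 Y))
  have hY : ComputableIn {orc (chain (cd Y))} Y :=
    cin_of_eq (cin_prim (prim_bit 1) hf) (congrFun (c1 Y))
  have hJ : ComputableIn {orc (join O Y)} (chain (cd Y)) := by
    have j := cin_orc (X := join O Y) (O := {orc (join O Y)}) rfl
    have jO : ComputableIn {orc (join O Y)} O :=
      cin_of_eq (cin_comp j (Primrec.nat_mul.comp (.const 2) Primrec.id).computableIn) fun i => by
        simp [join]
    have jY : ComputableIn {orc (join O Y)} Y :=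
      cin_of_eq (cin_comp j (Primrec.succ.comp
        (Primrec.nat_mul.comp (.const 2) Primrec.id)).computableIn) fun i => by
        rw [join, if_neg (by simp only [id]; omega)]
        exact congrArg Y (by simp only [id]; omega)
    have h1 := cin_prim q1.decide (cin_pair (ComputableIn.fst (β := ℕ))
      (cin_comp (cin_seg jO) ComputableIn.snd))
    have h2 := cin_find (P := fun n k => decide (q n (seg O k)))
      (cin_of_eq h1 fun p => by congr) hex
    have h3 : Primrec fun p : ℕ × Bool × Bool => 4 * p.1 + 2 * p.2.1.toNat + p.2.2.toNat :=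
      Primrec.nat_add.comp (Primrec.nat_add.comp (Primrec.nat_mul.comp (.const 4) Primrec.fst)
        (Primrec.nat_mul.comp (.const 2) ((Primrec.dom_bool Bool.toNat).comp
          (Primrec.fst.comp Primrec.snd))))
        ((Primrec.dom_bool Bool.toNat).comp (Primrec.snd.comp Primrec.snd))
    exact cin_chain (cin_prim h3 (cin_pair h2 (cin_pair jO jY)))
  refine ⟨chain (cd Y), ⟨sigma11_chain (prim_Tr q1) hu _, sigma11_chain (prim_Tr q1) hu _⟩,
    ncr_chain (prim_Tr q1) ?_ ((hT _).2 ⟨Y, y1, rfl⟩), ?_, ?_⟩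
  · refine ((((Set.countable_singleton Y).union (countable_cin O)).mono
      fun Y' h => y3 Y' h).image cd).mono fun f h => (hT f).1 h
  · refine orc_iff.2 (cin_subst q4 ?_)
    rintro _ rfl
    exact orc_iff.2 hO
  · rintro V ⟨h1, h2⟩ ⟨f, a1, a2⟩
    obtain ⟨g, g1, g2⟩ := y4 f ((a1.trans h1).trans (orc_iff.2 hJ))
    have h3 : RecursiveIn {orc O} (orc Y) := by
      refine RecursiveIn.subst ((TuringReducible.trans (orc_iff.2 hY) h2).trans (a2 g g2)) ?_
      rintro _ rfl
      exact g1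
    obtain ⟨e, he⟩ := exists_cd (orc_iff.1 h3)
    exact y2 e he

end Pool.Agent.Lib.MP_4b35b9_lc.Rel
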