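import Pool.Agent.Lib.MP_4b35b9_lc.Rel.Top
import Pool.Agent.Lib.MP_4b35b9_lc.Defs

/-!
Members of a countable effectively closed class are never continuously random.
-/

namespace Pool.Agent.Lib.MP_4b35b9_lc.Rel

open Pool.Agent.Shared.Oracle MeasureTheory Encodable Filter Topology

theorem measurableSet_cyl (σ : List Bool) : MeasurableSet (cyl σ) :=
  (isClosed_pre σ).measurableSet

/-- The weight of a list of strings computed from approximations. -/
def wt (q : List Bool × ℕ → ℕ) (D : List (List Bool)) (m : ℕ) : ℕ :=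
  (D.map fun σ => q (σ, m) + 1).sum

theorem cin_wt {O : Set (ℕ →. ℕ)} {q : List Bool × ℕ → ℕ} (hq : ComputableIn O q) :
    ComputableIn O fun p : List (List Bool) × ℕ => wt q p.1 p.2 := by
  have h1 : Primrec fun y : (List (List Bool) × ℕ) × ℕ × ℕ => (nth y.1.1 y.2.1, y.1.2) :=
    (prim_nth.comp (Primrec.fst.comp Primrec.fst) (Primrec.fst.comp Primrec.snd)).pair
      (Primrec.snd.comp Primrec.fst)
  have h2 := cin_comp hq h1.computableIn
  have h3 : Primrec₂ fun a b : ℕ => a + (b + 1) :=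
    Primrec.nat_add.comp Primrec.fst (Primrec.succ.comp Primrec.snd)
  have h4 : ComputableIn₂ O fun (p : List (List Bool) × ℕ) (r : ℕ × ℕ) =>
      r.2 + (q (nth p.1 r.1, p.2) + 1) :=
    cin_comp₂ (f := fun a b : ℕ => a + (b + 1)) h3.computableIn₂
      (Primrec.snd.comp Primrec.snd).computableIn h2
  refine cin_of_eq (cin_nat_rec (Primrec.list_length.comp Primrec.fst).computableIn
    (ComputableIn.const 0) h4) ?_
  rintro ⟨D, m⟩
  have : ∀ i ≤ D.length, Nat.rec (motive := fun _ => ℕ) 0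
      (fun y IH => IH + (q (nth D y, m) + 1)) i = wt q (D.take i) m := by
    intro i hi
    induction i with
    | zero => simp [wt]
    | succ i ih =>
      rw [List.take_add_one]
      simp only [wt, List.map_append, List.sum_append] at ih ⊢
      rw [← ih (by omega)]
      simp [nth, show i < D.length by omega]
  simpa using this D.length le_rfl

theorem sum_le_wt {μ : Measure (ℕ → Bool)} {q : List Bool × ℕ → ℕ}
    (hq : ∀ σ n, |μ.real (cyl σ) - (q (σ, n) : ℝ) / 2 ^ n| ≤ 1 / 2 ^ n) (D : List (List Bool))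
    (m : ℕ) : (D.map fun σ => μ.real (cyl σ)).sum ≤ (wt q D m : ℝ) / 2 ^ m ∧
      (wt q D m : ℝ) / 2 ^ m ≤ (D.map fun σ => μ.real (cyl σ)).sum + D.length * (2 / 2 ^ m) := by
  induction D with
  | nil => simp [wt]
  | cons σ D ih =>
    have h := abs_le.1 (hq σ m)
    simp only [wt, List.map_cons, List.sum_cons, Nat.cast_add, Nat.cast_one, List.length_cons,
      add_div] at ih ⊢
    have : (2 : ℝ) / 2 ^ m = 1 / 2 ^ m + 1 / 2 ^ m := by ring
    constructor <;> nlinarith [h.1, h.2, ih.1, ih.2]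

theorem tsum_le_list (μ : Measure (ℕ → Bool)) [IsFiniteMeasure μ] (D : List (List Bool)) :
    ∑' σ : {σ // σ ∈ D}, μ (cyl σ) ≤ ENNReal.ofReal (D.map fun σ => μ.real (cyl σ)).sum := by
  classical
  have h1 : ∑' σ : {σ // σ ∈ D}, μ (cyl σ) = ∑ σ ∈ D.toFinset, μ (cyl σ) := by
    rw [← Finset.tsum_subtype D.toFinset fun σ => μ (cyl σ)]
    exact (Equiv.subtypeEquivRight fun σ => List.mem_toFinset.symm).tsum_eq
      fun σ : {σ // σ ∈ D.toFinset} => μ (cyl σ)
  rw [h1]
  clear h1
  induction D with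
  | nil => simp
  | cons σ D ih =>
    rw [List.map_cons, List.sum_cons, ENNReal.ofReal_add measureReal_nonneg
      (List.sum_nonneg (by simp +contextual [measureReal_nonneg])), ofReal_measureReal,
      List.toFinset_cons]
    by_cases h : σ ∈ D.toFinset
    · rw [Finset.insert_eq_of_mem h]; exact ih.trans le_add_self
    · rw [Finset.sum_insert h]; gcongr

variable {p : List Bool → Prop} (hanti : ∀ Z k, p (seg Z (k + 1)) → p (seg Z k))
  (hP : {Z | ∀ k, p (seg Z k)}.Countable)

include hanti hP in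
theorem exists_small_cover (μ : Measure (ℕ → Bool)) [IsProbabilityMeasure μ]
    (hμ : ∀ Y, μ {Y} = 0) {ε : ℝ} (hε : 0 < ε) : ∃ (D : List (List Bool)) (k : ℕ),
      (∀ Z, p (seg Z k) → seg Z k ∈ D) ∧ (D.map fun σ => μ.real (cyl σ)).sum < ε := by
  classical
  have : NullSingletonClass μ := ⟨hμ⟩
  let E : ℕ → Set (ℕ → Bool) := fun k => {Z | p (seg Z k)}
  have hmeas : ∀ k, MeasurableSet (E k) := fun k => (isClopen_seg p k).isClosed.measurableSet
  have hsub : ⋂ k, E k ⊆ {Z | ∀ k, p (seg Z k)} := fun Z hZ => Set.mem_iInter.1 hZ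
  have hlim := tendsto_measure_iInter_atTop (μ := μ) (fun k => (hmeas k).nullMeasurableSet)
    (antitone_nat_of_succ_le fun k Z h => hanti Z k h) ⟨0, measure_ne_top _ _⟩
  rw [measure_mono_null hsub (hP.measure_zero μ)] at hlim
  obtain ⟨k, hk⟩ := (hlim.eventually (gt_mem_nhds (ENNReal.ofReal_pos.2 hε))).exists
  let S : Finset (List Bool) :=
    ((Finset.range (2 ^ k)).image fun m => seg (Nat.testBit m) k).filter p
  have hS : ∀ σ ∈ S, σ.length = k := by
    intro σ hσ
    obtain ⟨m, -, rfl⟩ := Finset.mem_image.1 (Finset.mem_filter.1 hσ).1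
    exact seg_length _ _
  have hS' : ∀ Z, p (seg Z k) → seg Z k ∈ S := by
    intro Z h
    obtain ⟨m, h1, h2⟩ := exists_bits Z k
    exact Finset.mem_filter.2 ⟨Finset.mem_image.2 ⟨m, Finset.mem_range.2 h1, h2 k le_rfl⟩, h⟩
  have hE : E k = ⋃ σ ∈ S, cyl σ := by
    ext Z
    simp only [Set.mem_iUnion, exists_prop]
    constructor
    · intro h
      refine ⟨_, hS' Z h, ?_⟩
      change seg Z _ = _
      rw [seg_length]
    · rintro ⟨σ, h1, h2⟩
      have h3 : seg Z σ.length = σ := h2
      rw [hS σ h1] at h3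
      change p (seg Z k)
      rw [h3]
      exact (Finset.mem_filter.1 h1).2
  refine ⟨S.toList, k, fun Z h => Finset.mem_toList.2 (hS' Z h), ?_⟩
  rw [Finset.sum_map_toList, ← measureReal_biUnion_finset _ (fun σ _ => measurableSet_cyl σ), ← hE]
  · exact ENNReal.toReal_lt_of_lt_ofReal hk
  · intro σ h1 τ h2 hne
    refine Set.disjoint_left.2 fun Z h3 h4 => hne ?_
    have h5 : seg Z σ.length = σ := h3
    have h6 : seg Z τ.length = τ := h4
    rw [← h5, ← h6, hS σ h1, hS τ h2]

include hanti hP in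
theorem ncr_of_tree (hp : PrimrecPred p) {X : ℕ → Bool} (hX : ∀ k, p (seg X k)) : NCR X := by
  classical
  rintro μ hprob hμ ⟨Y, ⟨q, hq, hq'⟩, hY⟩
  obtain ⟨dec, hdec, hdec'⟩ : ∃ dec : ℕ → List (List Bool) × ℕ × ℕ, Primrec dec ∧
      ∀ p, dec (encode p) = p :=
    ⟨fun c => (decode c).getD ([], 0, 0), Primrec.option_getD.comp Primrec.decode (Primrec.const _),
      fun p => by simp only [encodek, Option.getD_some]⟩
  let good : ℕ → ℕ → Bool := fun n c =>
    decide ((∀ m < 2 ^ (dec c).2.1, p (seg (Nat.testBit m) (dec c).2.1) →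
      seg (Nat.testBit m) (dec c).2.1 ∈ (dec c).1) ∧
      wt q (dec c).1 (dec c).2.2 * 2 ^ n ≤ 2 ^ (dec c).2.2)
  have hgood : ComputableIn₂ {chi Y} good := by
    have h0 : Primrec fun z : ℕ × List (List Bool) × ℕ × ℕ => seg (Nat.testBit z.1) z.2.2.1 :=
      Primrec.list_map (Primrec.list_range.comp (Primrec.fst.comp (Primrec.snd.comp Primrec.snd)))
        (prim_testBit.comp (Primrec.fst.comp Primrec.fst) Primrec.snd).to₂
    have h1 : PrimrecRel fun (m : ℕ) (y : List (List Bool) × ℕ × ℕ) =>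
        p (seg (Nat.testBit m) y.2.1) → seg (Nat.testBit m) y.2.1 ∈ y.1 := by
      have h2 := (Primrec.eq (α := List Bool)).exists_mem_list.comp
        (Primrec.fst.comp (Primrec.snd (α := ℕ) (β := List (List Bool) × ℕ × ℕ))) h0
      exact prim_imp (hp.comp h0) (h2.of_eq fun p => by simp)
    have h1' := prim_forall_lt (prim_pow.comp (.const 2) (Primrec.fst.comp Primrec.snd)) h1
    have h2 : PrimrecPred fun z : ℕ × ℕ × List (List Bool) × ℕ × ℕ =>
        (∀ m < 2 ^ z.2.2.2.1, p (seg (Nat.testBit m) z.2.2.2.1) →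
          seg (Nat.testBit m) z.2.2.2.1 ∈ z.2.2.1) ∧ z.1 * 2 ^ z.2.1 ≤ 2 ^ z.2.2.2.2 :=
      (h1'.comp (Primrec.snd.comp Primrec.snd)).and
        (Primrec.nat_le.comp (Primrec.nat_mul.comp Primrec.fst
          (prim_pow.comp (.const 2) (Primrec.fst.comp Primrec.snd)))
          (prim_pow.comp (.const 2) (Primrec.snd.comp (Primrec.snd.comp
            (Primrec.snd.comp Primrec.snd)))))
    have h3 : Primrec fun p : ℕ × ℕ => dec p.2 := hdec.comp Primrec.snd
    have h4' : Primrec fun p : ℕ × ℕ => ((dec p.2).1, (dec p.2).2.2) :=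
      (Primrec.fst.comp h3).pair (Primrec.snd.comp (Primrec.snd.comp h3))
    have h4 := cin_comp (cin_wt hq) h4'.computableIn
    have h6 := cin_comp h2.decide.computableIn (cin_pair h4 (Primrec.fst.pair h3).computableIn)
    exact h6
  have hex : ∀ n, ∃ c, good n c = true := by
    intro n
    obtain ⟨D, k, h1, h2⟩ := exists_small_cover hanti hP μ hμ (ε := 1 / 2 ^ (n + 1)) (by positivity)
    obtain ⟨m, hm⟩ : ∃ m : ℕ, (D.length : ℝ) * (2 / 2 ^ m) ≤ 1 / 2 ^ (n + 1) := by
      refine ⟨D.length + (n + 2), ?_⟩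
      have h3 : (D.length : ℝ) ≤ 2 ^ D.length := by exact_mod_cast Nat.lt_two_pow_self.le
      calc (D.length : ℝ) * (2 / 2 ^ (D.length + (n + 2)))
          ≤ 2 ^ D.length * (2 / 2 ^ (D.length + (n + 2))) := by gcongr
        _ = 1 / 2 ^ (n + 1) := by field_simp; ring
    refine ⟨encode (D, k, m), ?_⟩
    have h3 : dec (encode (D, k, m)) = (D, k, m) := hdec' _
    simp only [good, h3, decide_eq_true_eq]
    refine ⟨fun m _ => h1 _, ?_⟩
    have h4 : (wt q D m : ℝ) / 2 ^ m ≤ 1 / 2 ^ n := by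
      have := (sum_le_wt hq' D m).2
      have h5 : (1 : ℝ) / 2 ^ n = 1 / 2 ^ (n + 1) + 1 / 2 ^ (n + 1) := by field_simp; ring
      linarith
    rw [div_le_div_iff₀ (by positivity) (by positivity), one_mul] at h4
    exact_mod_cast h4
  let D : ℕ → List (List Bool) := fun n => (dec (Nat.find (hex n))).1
  have hD : ComputableIn {chi Y} D :=
    cin_comp (f := fun c => (dec c).1) (Primrec.fst.comp hdec).computableIn (cin_find hgood hex)
  have hspec := fun n => of_decide_eq_true (Nat.find_spec (hex n))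
  suffices hT : IsTest Y μ {p | p.2 ∈ D p.1} by
    obtain ⟨n, hn⟩ := hY _ hT
    obtain ⟨m, h1, h2⟩ := exists_bits X (dec (Nat.find (hex n))).2.1
    have h3 := (hspec n).1 m h1
    rw [h2 _ le_rfl] at h3
    exact hn _ (h3 (hX _)) (congrArg (seg X) (seg_length X _))
  refine ⟨?_, fun n => ?_⟩
  · have h1 : PrimrecPred fun p : List (List Bool) × List Bool => p.2 ∈ p.1 :=
      ((Primrec.eq (α := List Bool)).exists_mem_list).of_eq fun p => by simp
    have h2 : Partrec fun p : List (List Bool) × List Bool =>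
        (Part.assert (p.2 ∈ p.1) fun _ => Part.some ()).map fun _ => (0 : ℕ) :=
      Partrec.map (re_of_prim h1) (Computable.const 0).to₂
    have h3 := rec_comp (h2.recursiveIn (O := {chi Y}))
      (cin_pair (cin_comp hD (ComputableIn.fst (β := List Bool))) ComputableIn.snd)
    refine ⟨_, h3, ?_⟩
    ext p
    simp [PFun.Dom, Part.assert]
  · refine (tsum_le_list μ (D n)).trans ?_
    have h1 := (sum_le_wt hq' (D n) (dec (Nat.find (hex n))).2.2).1
    have h2 : (wt q (D n) (dec (Nat.find (hex n))).2.2 : ℝ) / 2 ^ (dec (Nat.find (hex n))).2.2 ≤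
        1 / 2 ^ n := by
      rw [div_le_div_iff₀ (by positivity) (by positivity), one_mul]
      exact_mod_cast (hspec n).2
    refine (ENNReal.ofReal_le_ofReal (h1.trans h2)).trans_eq ?_
    rw [ENNReal.ofReal_div_of_pos (by positivity), ENNReal.ofReal_pow (by norm_num)]
    simp

end Pool.Agent.Lib.MP_4b35b9_lc.Rel
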