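import Pool.Agent.Lib.MP_4b35b9_lc.Rel.Machine

/-!
Runs of the nested processes and the classes of reals they define.
-/

namespace Pool.Agent.Lib.MP_4b35b9_lc.Rel

open Pool.Agent.Shared.Oracle Sh

theorem cin_prim {α β σ : Type} [Primcodable α] [Primcodable β] [Primcodable σ]
    {O : Set (ℕ →. ℕ)} {f : β → σ} {g : α → β} (hf : Primrec f) (hg : ComputableIn O g) :
    ComputableIn O fun a => f (g a) :=
  cin_comp hf.computableIn hg

/-- Proper initial segment. -/
def SP (ρ σ : List Bool) : Prop := ρ <+: σ ∧ ρ.length < σ.length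

/-- Every string of the list is properly extended. -/
def Ext (l l' : List (List Bool)) : Prop :=
  l.length = l'.length ∧ ∀ j < l.length, SP (nth l j) (nth l' j)

/-- `ρ` is an initial segment of `X`. -/
def Pre (ρ : List Bool) (X : ℕ → Bool) : Prop := seg X ρ.length = ρ

theorem SP.trans_pre {ρ σ τ : List Bool} (h : SP ρ σ) (h' : σ <+: τ) : SP ρ τ :=
  ⟨h.1.trans h', h.2.trans_le h'.length_le⟩

theorem SP.pre_trans {ρ σ τ : List Bool} (h : ρ <+: σ) (h' : SP σ τ) : SP ρ τ :=
  ⟨h.trans h'.1, h.length_le.trans_lt h'.2⟩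

theorem Pre.of_prefix {ρ σ : List Bool} {X : ℕ → Bool} (h : Pre σ X) (h' : ρ <+: σ) : Pre ρ X := by
  unfold Pre at *
  rw [← seg_take X h'.length_le, h]
  exact (List.prefix_iff_eq_take.1 h').symm

theorem Pre.prefix_seg {ρ : List Bool} {X : ℕ → Bool} (h : Pre ρ X) {k : ℕ} (hk : ρ.length ≤ k) :
    ρ <+: seg X k := by
  have := seg_prefix X hk
  rwa [h] at this

theorem Pre.seg_prefix' {ρ : List Bool} {X : ℕ → Bool} (h : Pre ρ X) {k : ℕ} (hk : k ≤ ρ.length) :
    seg X k <+: ρ := by
  have := seg_prefix X hk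
  rwa [h] at this

theorem Pre.getElem? {ρ : List Bool} {X : ℕ → Bool} (h : Pre ρ X) {m : ℕ} (hm : m < ρ.length) :
    ρ[m]? = some (X m) := by
  conv_lhs => rw [← h]
  rw [seg_getElem?, if_pos hm]

theorem exists_pre (ρ : List Bool) : ∃ X, Pre ρ X := by
  refine ⟨fun m => ρ.getD m false, ?_⟩
  apply List.ext_getElem (by simp)
  intro i h1 h2
  simp [seg, h2]

theorem isClosed_pre (ρ : List Bool) : IsClosed {X | Pre ρ X} :=
  (isClopen_seg (fun τ => τ = ρ) ρ.length).isClosed

theorem nth_mem {l : List (List Bool)} {j : ℕ} (h : j < l.length) : nth l j ∈ l := by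
  simp [nth, h]

theorem exists_nth {l : List (List Bool)} {ρ : List Bool} (h : ρ ∈ l) :
    ∃ j < l.length, nth l j = ρ := by
  obtain ⟨j, hj, e⟩ := List.getElem_of_mem h
  exact ⟨j, hj, by simp [nth, hj, e]⟩

theorem nth_append_left {l l' : List (List Bool)} {j : ℕ} (h : j < l.length) :
    nth (l ++ l') j = nth l j := by
  simp [nth, List.getElem?_append_left h]

theorem nth_append_right {l l' : List (List Bool)} {j : ℕ} (h : l.length ≤ j) :
    nth (l ++ l') j = nth l' (j - l.length) := by
  simp [nth, List.getElem?_append_right h]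

theorem nth_take {l : List (List Bool)} {a j : ℕ} (h : j < a) : nth (l.take a) j = nth l j := by
  simp [nth, h]

theorem nth_drop (l : List (List Bool)) (a j : ℕ) : nth (l.drop a) j = nth l (a + j) := by
  simp [nth]

theorem nth_tail (l : List (List Bool)) (j : ℕ) : nth l.tail j = nth l (j + 1) := by
  simp [nth]

@[simp] theorem nth_cons_zero (ρ : List Bool) (l : List (List Bool)) : nth (ρ :: l) 0 = ρ := rfl

@[simp] theorem nth_cons_succ (ρ : List Bool) (l : List (List Bool)) (j : ℕ) :
    nth (ρ :: l) (j + 1) = nth l j := rfl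

theorem Ext.cover {l l' : List (List Bool)} (h : Ext l l') {ρ' : List Bool} (hρ : ρ' ∈ l') :
    ∃ ρ ∈ l, SP ρ ρ' := by
  obtain ⟨j, hj, rfl⟩ := exists_nth hρ
  rw [← h.1] at hj
  exact ⟨_, nth_mem hj, h.2 j hj⟩

/-- A shape and the number of its active tips. -/
inductive WF : Sh → ℕ → Prop
  | leaf : WF leaf 1
  | node {n i a b : ℕ} {A B : Sh} : i < a → WF A a → WF B b → WF (node n i a A B) (a + b)

theorem WF.pos {s : Sh} {m : ℕ} (h : WF s m) : 0 < m := by
  cases h with
  | leaf => exact Nat.one_pos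
  | node h _ _ => omega

theorem WF.inv {n i a m : ℕ} {A B : Sh} (h : WF (.node n i a A B) m) :
    i < a ∧ a < m ∧ WF A a ∧ WF B (m - a) := by
  cases h with
  | node h hA hB => exact ⟨h, by have := hB.pos; omega, hA, by simpa using hB⟩

section Cases

variable {n i a e : ℕ} {A B : Sh} {l : List (List Bool)} {t ρ : List Bool}

theorem step_none (h : found t (node n i a A B) e l = none) :
    step t (node n i a A B) e l = (node n i a A (step t B (e + 1) (l.drop a)).1,
      l.take a ++ (step t B (e + 1) (l.drop a)).2) := by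
  rw [step, h]

theorem step_mid (h : found t (node n i a A B) e l = some ρ) (hi : i + 1 < a) :
    step t (node n i a A B) e l = (node n (i + 1) a A leaf,
      l.take (i + 1) ++ ρ :: ((l.take a).drop (i + 2) ++ [nth l (i + 1)])) := by
  rw [step, h]; simp [hi]

theorem step_fin (h : found t (node n i a A B) e l = some ρ) (hi : ¬ i + 1 < a) :
    step t (node n i a A B) e l =
      (node (n + 1) 0 (step t A (e + 1) ((l.take a).tail ++ [ρ])).2.length
            (step t A (e + 1) ((l.take a).tail ++ [ρ])).1 leaf,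
          nth l 0 :: ((step t A (e + 1) ((l.take a).tail ++ [ρ])).2.tail ++
            [nth (step t A (e + 1) ((l.take a).tail ++ [ρ])).2 0])) := by
  rw [step, h]; simp [hi]

theorem found_spec (h : found t (node n i a A B) e l = some ρ) :
    ρ ∈ l.drop a ∧ W e n t ρ = true :=
  ⟨List.mem_of_find?_eq_some h, List.find?_some h⟩

theorem found_none (h : found t (node n i a A B) e l = none) :
    ∀ ρ ∈ l.drop a, W e n t ρ = false := by
  intro ρ hρ
  have := List.find?_eq_none.1 h ρ hρ
  exact Bool.eq_false_iff.2 this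

end Cases

theorem step_spec (t : List Bool) {s : Sh} {m : ℕ} (h : WF s m) : ∀ (e : ℕ) (l : List (List Bool)),
    l.length = m → WF (step t s e l).1 (step t s e l).2.length ∧
      ∀ ρ' ∈ (step t s e l).2, ∃ ρ ∈ l, ρ <+: ρ' := by
  induction h with
  | leaf =>
    intro e l hl
    refine ⟨WF.node (b := 1) Nat.one_pos .leaf .leaf, ?_⟩
    intro ρ' hρ'
    simp only [step, List.mem_cons, List.not_mem_nil, or_false] at hρ'
    rcases hρ' with rfl | rfl <;> exact ⟨_, nth_mem (by omega), List.prefix_append _ _⟩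
  | @node n i a b A B hi hA hB ihA ihB =>
    intro e l hl
    have hb := hB.pos
    rcases hf : found t (node n i a A B) e l with - | ρ
    · rw [step_none hf]
      obtain ⟨h1, h2⟩ := ihB (e + 1) (l.drop a) (by simp [hl])
      refine ⟨?_, fun ρ' hρ' => ?_⟩
      · have := WF.node (n := n) hi hA h1
        simpa [hl] using this
      · rcases List.mem_append.1 hρ' with h | h
        · exact ⟨ρ', List.mem_of_mem_take h, List.prefix_refl _⟩
        · obtain ⟨ρ, h3, h4⟩ := h2 ρ' h
          exact ⟨ρ, List.mem_of_mem_drop h3, h4⟩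
    · have hρ := List.mem_of_mem_drop (found_spec hf).1
      by_cases hia : i + 1 < a
      · rw [step_mid hf hia]
        refine ⟨?_, fun ρ' hρ' => ⟨ρ', ?_, List.prefix_refl _⟩⟩
        · have := WF.node (n := n) hia hA .leaf
          convert this using 1
          simp [hl]; omega
        · simp only [List.mem_append, List.mem_cons, List.not_mem_nil, or_false] at hρ'
          rcases hρ' with h | rfl | h | rfl
          · exact List.mem_of_mem_take h
          · exact hρ
          · exact List.mem_of_mem_take (List.mem_of_mem_drop h)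
          · exact nth_mem (by omega)
      · rw [step_fin hf hia]
        obtain ⟨h1, h2⟩ := ihA (e + 1) ((l.take a).tail ++ [ρ]) (by simp [hl]; omega)
        have hp := h1.pos
        have h3 : ∀ ρ' ∈ (step t A (e + 1) ((l.take a).tail ++ [ρ])).2, ∃ σ ∈ l, σ <+: ρ' := by
          intro ρ' hρ'
          obtain ⟨σ, h3, h4⟩ := h2 ρ' hρ'
          refine ⟨σ, ?_, h4⟩
          rcases List.mem_append.1 h3 with h | h
          · exact List.mem_of_mem_take (List.mem_of_mem_tail h)
          · rw [List.mem_singleton.1 h]; exact hρ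
        refine ⟨?_, fun ρ' hρ' => ?_⟩
        · have := WF.node (n := n + 1) hp h1 .leaf
          convert this using 1
          simp; omega
        · simp only [List.mem_append, List.mem_cons, List.not_mem_nil, or_false] at hρ'
          rcases hρ' with rfl | h | rfl
          · exact ⟨_, nth_mem (by omega), List.prefix_refl _⟩
          · exact h3 _ (List.mem_of_mem_tail h)
          · exact h3 _ (nth_mem hp)

theorem step_isNode (t : List Bool) (s : Sh) (e : ℕ) (l : List (List Bool)) :
    ∃ n i a A B, (step t s e l).1 = node n i a A B := by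
  cases s with
  | leaf => exact ⟨_, _, _, _, _, rfl⟩
  | node n i a A B =>
    rcases hf : found t (node n i a A B) e l with - | ρ
    · rw [step_none hf]; exact ⟨_, _, _, _, _, rfl⟩
    · by_cases hia : i + 1 < a
      · rw [step_mid hf hia]; exact ⟨_, _, _, _, _, rfl⟩
      · rw [step_fin hf hia]; exact ⟨_, _, _, _, _, rfl⟩

theorem step_head (t : List Bool) {n i a : ℕ} {A B : Sh} (e : ℕ) {l : List (List Bool)}
    (h : WF (node n i a A B) l.length) : nth (step t (node n i a A B) e l).2 0 = nth l 0 := by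
  obtain ⟨h1, h2, -, -⟩ := h.inv
  rcases hf : found t (node n i a A B) e l with - | ρ
  · rw [step_none hf, nth_append_left (by simp; omega), nth_take (by omega)]
  · by_cases hia : i + 1 < a
    · rw [step_mid hf hia, nth_append_left (by simp; omega), nth_take (by omega)]
    · rw [step_fin hf hia]; rfl

/-- A run, computable in `O`, of the process for requirement `e`, in an environment that extends tips. -/
structure Run (O : ℕ → Bool) (e : ℕ) where
  sh : ℕ → Sh
  L : ℕ → List (List Bool)
  t : ℕ → List Bool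
  sh0 : sh 0 = leaf
  len0 : (L 0).length = 1
  hsh : ∀ k, sh (k + 1) = (step (t k) (sh k) e (L k)).1
  hL : ∀ k, Ext (step (t k) (sh k) e (L k)).2 (L (k + 1))
  ht : ∀ k, ∃ j ≥ k, t k = seg O j
  comp : ComputableIn {orc O} fun k => (t k, sh k, e, L k)

namespace Run

variable {O : ℕ → Bool} {e : ℕ} (R : Run O e)

/-- The class of reals of a run. -/
def P : Set (ℕ → Bool) := {X | ∀ k, ∃ ρ ∈ R.L k, Pre ρ X}

theorem wf (k : ℕ) : WF (R.sh k) (R.L k).length := by
  induction k with
  | zero => rw [R.sh0, R.len0]; exact .leaf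
  | succ k ih =>
    rw [R.hsh, ← (R.hL k).1]
    exact (step_spec _ ih e _ rfl).1

theorem cover (k : ℕ) {ρ' : List Bool} (h : ρ' ∈ R.L (k + 1)) : ∃ ρ ∈ R.L k, SP ρ ρ' := by
  obtain ⟨σ, h1, h2⟩ := (R.hL k).cover h
  obtain ⟨ρ, h3, h4⟩ := (step_spec _ (R.wf k) e _ rfl).2 σ h1
  exact ⟨ρ, h3, SP.pre_trans h4 h2⟩

theorem le_length (k : ℕ) : ∀ ρ ∈ R.L k, k ≤ ρ.length := by
  induction k with
  | zero => intro _ _; exact Nat.zero_le _
  | succ k ih =>
    intro ρ' h
    obtain ⟨ρ, h1, h2⟩ := R.cover k h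
    have := ih ρ h1
    have := h2.2
    omega

theorem cover_le {k k' : ℕ} (h : k ≤ k') : ∀ ρ' ∈ R.L k', ∃ ρ ∈ R.L k, ρ <+: ρ' := by
  induction k', h using Nat.le_induction with
  | base => exact fun ρ h => ⟨ρ, h, List.prefix_refl _⟩
  | succ k' _ ih =>
    intro ρ' h
    obtain ⟨σ, h1, h2⟩ := R.cover k' h
    obtain ⟨ρ, h3, h4⟩ := ih σ h1
    exact ⟨ρ, h3, h4.trans h2.1⟩

theorem mem_P_of_frequently {X : ℕ → Bool} (h : ∀ k, ∃ k' ≥ k, ∃ ρ ∈ R.L k', Pre ρ X) :
    X ∈ R.P := by
  intro k
  obtain ⟨k', hk, ρ', h1, h2⟩ := h k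
  obtain ⟨ρ, h3, h4⟩ := R.cover_le hk ρ' h1
  exact ⟨ρ, h3, h2.of_prefix h4⟩

theorem isClosed_level (k : ℕ) : IsClosed {X | ∃ ρ ∈ R.L k, Pre ρ X} := by
  have : {X | ∃ ρ ∈ R.L k, Pre ρ X} = ⋃ ρ ∈ {ρ | ρ ∈ R.L k}, {X | Pre ρ X} := by
    ext X; simp
  rw [this]
  exact (List.finite_toSet _).isClosed_biUnion fun ρ _ => isClosed_pre ρ

theorem isClosed_P : IsClosed R.P := by
  have : R.P = ⋂ k, {X | ∃ ρ ∈ R.L k, Pre ρ X} := by
    ext X; simp [P]
  rw [this]
  exact isClosed_iInter R.isClosed_level

theorem isNode (k : ℕ) : ∃ n i a A B, R.sh (k + 1) = node n i a A B := by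
  rw [R.hsh]; exact step_isNode _ _ _ _

theorem comp_L : ComputableIn {orc O} R.L := by
  have h := cin_prim (Primrec.snd.comp (Primrec.snd.comp Primrec.snd)) R.comp
  exact h

theorem pre_init {X : ℕ → Bool} (h : X ∈ R.P) : Pre (nth (R.L 0) 0) X := by
  obtain ⟨ρ, h1, h2⟩ := h 0
  obtain ⟨j, hj, rfl⟩ := exists_nth h1
  rw [R.len0] at hj
  obtain rfl : j = 0 := by omega
  exact h2

section Position

variable {R} {k₀ j : ℕ} (h : ∀ k ≥ k₀, SP (nth (R.L k) j) (nth (R.L (k + 1)) j))
include h

theorem pos_mono {k k' : ℕ} (h1 : k₀ ≤ k) (h2 : k ≤ k') : nth (R.L k) j <+: nth (R.L k') j := by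
  induction k', h2 using Nat.le_induction with
  | base => exact List.prefix_refl _
  | succ k' hk ih => exact ih.trans (h k' (by omega)).1

theorem pos_length (m : ℕ) : m ≤ (nth (R.L (k₀ + m)) j).length := by
  induction m with
  | zero => exact Nat.zero_le _
  | succ m ih => exact Nat.succ_le_of_lt (ih.trans_lt (h (k₀ + m) (by omega)).2)

theorem pos_computable {Z : ℕ → Bool} (hZ : ∀ k ≥ k₀, Pre (nth (R.L k) j) Z) :
    ComputableIn {orc O} Z := by
  have h0 : Primrec fun p : List (List Bool) × ℕ => (nth p.1 j).getD p.2 false :=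
    (Primrec.list_getD false).comp (prim_nth.comp Primrec.fst (.const j)) Primrec.snd
  have h1 := cin_prim h0 (cin_pair (cin_comp R.comp_L
    (Primrec.nat_add.comp (.const k₀) Primrec.succ).computableIn) Primrec.id.computableIn)
  refine cin_of_eq h1 fun m => ?_
  have h2 := (hZ (k₀ + (m + 1)) (by omega)).getElem? (pos_length h (m + 1))
  simp [h2]

theorem pos_exists : ∃ Z, ∀ k ≥ k₀, Pre (nth (R.L k) j) Z := by
  obtain ⟨Z, hZ⟩ := IsCompact.nonempty_iInter_of_sequence_nonempty_isCompact_isClosed
    (fun m => {X | Pre (nth (R.L (k₀ + m)) j) X})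
    (fun m X hX => Pre.of_prefix hX (h (k₀ + m) (by omega)).1) (fun m => exists_pre _)
    (isClosed_pre _).isCompact (fun m => isClosed_pre _)
  refine ⟨Z, fun k hk => ?_⟩
  have := Set.mem_iInter.1 hZ (k - k₀)
  rwa [Nat.add_sub_cancel' hk] at this

end Position

theorem reserve_sp : ∀ k ≥ 1, SP (nth (R.L k) 0) (nth (R.L (k + 1)) 0) := by
  intro k hk
  obtain ⟨k, rfl⟩ : ∃ k', k = k' + 1 := ⟨k - 1, by omega⟩
  obtain ⟨n, i, a, A, B, hs⟩ := R.isNode k
  have h1 := R.hL (k + 1)
  have h2 := R.wf (k + 1)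
  have h3 := (R.wf (k + 2)).pos
  rw [hs] at h1 h2
  have h4 := h1.2 0 (by rw [h1.1]; exact h3)
  rwa [step_head _ _ h2] at h4

theorem step_zero : Ext [nth (R.L 0) 0 ++ [true], nth (R.L 0) 0 ++ [false]] (R.L 1) := by
  have := R.hL 0
  rwa [R.sh0] at this

theorem sh_one : R.sh 1 = node 0 0 1 leaf leaf := by
  rw [R.hsh, R.sh0]; rfl

theorem exists_reserve : ∃ Z ∈ R.P, Pre (nth (R.L 0) 0 ++ [true]) Z := by
  obtain ⟨Z, hZ⟩ := pos_exists R.reserve_sp
  refine ⟨Z, R.mem_P_of_frequently fun k => ⟨k + 1, by omega, _, nth_mem (R.wf _).pos,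
    hZ _ (by omega)⟩, (hZ 1 le_rfl).of_prefix ?_⟩
  exact (R.step_zero.2 0 (by simp)).1

theorem init_prefix {k : ℕ} (hk : 1 ≤ k) :
    ∀ j, 0 < j → j < (R.L k).length → nth (R.L 0) 0 ++ [false] <+: nth (R.L k) j := by
  induction k, hk using Nat.le_induction with
  | base =>
    intro j h1 h2
    rw [← R.step_zero.1] at h2
    obtain rfl : j = 1 := by simp at h2; omega
    exact (R.step_zero.2 1 (by simp)).1
  | succ k hk ih =>
    intro j h1 h2
    obtain ⟨k, rfl⟩ : ∃ k', k = k' + 1 := ⟨k - 1, by omega⟩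
    obtain ⟨n, i, a, A, B, hs⟩ := R.isNode k
    have h3 := R.hL (k + 1)
    have h4 := R.wf (k + 1)
    rw [hs] at h3 h4
    rw [← h3.1] at h2
    refine List.IsPrefix.trans ?_ (h3.2 j h2).1
    obtain ⟨a1, a2, a3, a4⟩ := h4.inv
    set l := R.L (k + 1) with hl
    have ih' : ∀ ρ ∈ l.tail, nth (R.L 0) 0 ++ [false] <+: ρ := by
      intro ρ hρ
      obtain ⟨j, hj, rfl⟩ := exists_nth hρ
      rw [nth_tail]
      exact ih _ (by omega) (by simp at hj; omega)
    have hdrop : ∀ ρ ∈ l.drop a, ρ ∈ l.tail := by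
      intro ρ hρ
      rw [← List.drop_one]
      exact List.drop_subset_drop_left l (by omega) hρ
    have htake : ∀ ρ ∈ (l.take a).tail, ρ ∈ l.tail := by
      intro ρ hρ
      obtain ⟨j, hj, rfl⟩ := exists_nth hρ
      simp only [List.length_tail, List.length_take] at hj
      rw [nth_tail, nth_take (by omega), ← nth_tail]
      exact nth_mem (by simp; omega)
    obtain ⟨j, rfl⟩ : ∃ j', j = j' + 1 := ⟨j - 1, by omega⟩
    rw [← nth_tail]
    have hmem : nth (step (R.t (k + 1)) (node n i a A B) e l).2.tail j ∈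
        (step (R.t (k + 1)) (node n i a A B) e l).2.tail := nth_mem (by simp; omega)
    generalize nth (step (R.t (k + 1)) (node n i a A B) e l).2.tail j = σ at hmem
    rcases hf : found (R.t (k + 1)) (node n i a A B) e l with - | ρ
    · rw [step_none hf, List.tail_append_of_ne_nil
        (List.ne_nil_of_length_pos (by simp only [List.length_take]; omega))] at hmem
      rcases List.mem_append.1 hmem with h | h
      · exact ih' _ (htake _ h)
      · obtain ⟨ρ, b1, b2⟩ := (step_spec _ a4 (e + 1) (l.drop a) (by simp)).2 σ h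
        exact (ih' _ (hdrop _ b1)).trans b2
    · have hρ := hdrop _ (found_spec hf).1
      by_cases hia : i + 1 < a
      · rw [step_mid hf hia, List.tail_append_of_ne_nil
          (List.ne_nil_of_length_pos (by simp only [List.length_take]; omega))] at hmem
        simp only [List.mem_append, List.mem_cons, List.not_mem_nil, or_false] at hmem
        apply ih'
        rcases hmem with h | rfl | h | rfl
        · obtain ⟨j, hj, rfl⟩ := exists_nth h
          simp only [List.length_tail, List.length_take] at hj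
          rw [nth_tail, nth_take (by omega), ← nth_tail]
          exact nth_mem (by simp; omega)
        · exact hρ
        · apply htake
          rw [← List.drop_one]
          exact List.drop_subset_drop_left _ (by omega) h
        · rw [← nth_tail]; exact nth_mem (by simp; omega)
      · rw [step_fin hf hia] at hmem
        obtain ⟨b1, b2⟩ := step_spec (R.t (k + 1)) a3 (e + 1) ((l.take a).tail ++ [ρ])
          (by simp; omega)
        have b3 : σ ∈ (step (R.t (k + 1)) A (e + 1) ((l.take a).tail ++ [ρ])).2 := by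
          simp only [List.tail_cons, List.mem_append, List.mem_cons, List.not_mem_nil,
            or_false] at hmem
          rcases hmem with h | rfl
          · exact List.mem_of_mem_tail h
          · exact nth_mem b1.pos
        obtain ⟨τ, c1, c2⟩ := b2 σ b3
        refine (ih' τ ?_).trans c2
        rcases List.mem_append.1 c1 with h | h
        · exact htake _ h
        · rw [List.mem_singleton.1 h]; exact hρ

end Run

end Pool.Agent.Lib.MP_4b35b9_lc.Rel
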