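import Pool.Agent.Lib.MP_4b35b9_lc.Rel.Sub

/-!
Relative to an oracle `O`: a real `Y` not computable from `O`, such that every function computable
from `O` and `Y` is dominated by a function computable from `O`, and `Y` is the only member not
computable from `O` of a class that is effectively closed in `O`.
-/

namespace Pool.Agent.Lib.MP_4b35b9_lc.Rel

open Pool.Agent.Shared.Oracle Sh Encodable

theorem cin_search {α β : Type} [Primcodable α] [Primcodable β] {O : Set (ℕ →. ℕ)} {q : β → Prop}
    (hq : PrimrecPred q) {g : α × ℕ → β} (hg : ComputableIn O g) (hex : ∀ a, ∃ n, q (g (a, n))) :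
    ∃ f : α → ℕ, ComputableIn O f ∧ ∀ a, q (g (a, f a)) := by
  classical
  have h1 := cin_prim hq.decide hg
  have h2 : ∀ a, ∃ n, decide (q (g (a, n))) = true := fun a => by simpa using hex a
  exact ⟨fun a => Nat.find (h2 a), cin_find (P := fun a n => decide (q (g (a, n)))) h1 h2,
    fun a => of_decide_eq_true (Nat.find_spec (h2 a))⟩

/-- The states of the outermost run, from a segment of the oracle. -/
def stL (σ : List Bool) (k : ℕ) : Sh × List (List Bool) :=
  Nat.rec (leaf, [[]]) (fun k p => ((step (σ.take k) p.1 0 p.2).1,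
    (step (σ.take k) p.1 0 p.2).2.map fun ρ => ρ ++ [false])) k

theorem prim_stL : Primrec₂ stL := by
  have h1 : Primrec fun y : (List Bool × ℕ) × ℕ × Sh × List (List Bool) =>
      ((y.1.1.take y.2.1, y.2.2.1, 0, y.2.2.2) : Arg) :=
    (Primrec.list_take.comp (Primrec.fst.comp Primrec.snd) (Primrec.fst.comp Primrec.fst)).pair
      ((Primrec.fst.comp (Primrec.snd.comp Primrec.snd)).pair
      ((Primrec.const 0).pair (Primrec.snd.comp (Primrec.snd.comp Primrec.snd))))
  have h2 := prim_step.comp h1
  have h3 := Primrec.list_map (Primrec.snd.comp h2) (g := fun _ (ρ : List Bool) => ρ ++ [false])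
    (Primrec.list_concat.comp Primrec.snd (Primrec.const false)).to₂
  have h4 := (Primrec.fst.comp h2).pair h3
  have h5 := Primrec.nat_rec' (f := fun y : List Bool × ℕ => y.2) (g := fun _ => ((leaf, [[]]) :
    Sh × List (List Bool))) (h := fun (y : List Bool × ℕ) (q : ℕ × Sh × List (List Bool)) =>
      ((step (y.1.take q.1) q.2.1 0 q.2.2).1,
        (step (y.1.take q.1) q.2.1 0 q.2.2).2.map fun ρ => ρ ++ [false]))
    Primrec.snd (Primrec.const _) h4.to₂
  exact h5

theorem stL_succ (σ : List Bool) (k : ℕ) : stL σ (k + 1) =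
    ((step (σ.take k) (stL σ k).1 0 (stL σ k).2).1,
      (step (σ.take k) (stL σ k).1 0 (stL σ k).2).2.map fun ρ => ρ ++ [false]) := rfl

theorem stL_seg (O : ℕ → Bool) (k : ℕ) : ∀ j ≥ k, stL (seg O j) k = stL (seg O k) k := by
  induction k with
  | zero => intro _ _; rfl
  | succ k ih =>
    intro j hj
    rw [stL_succ, stL_succ, ih j (by omega), ih (k + 1) (by omega), seg_take O (by omega),
      seg_take O (by omega)]

theorem stL_step (O : ℕ → Bool) (k : ℕ) : stL (seg O (k + 1)) (k + 1) =
    ((step (seg O k) (stL (seg O k) k).1 0 (stL (seg O k) k).2).1,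
      (step (seg O k) (stL (seg O k) k).1 0 (stL (seg O k) k).2).2.map fun ρ => ρ ++ [false]) := by
  rw [stL_succ, stL_seg O k (k + 1) (by omega), seg_take O (by omega)]

/-- The outermost run. -/
def top (O : ℕ → Bool) : Run O 0 where
  sh k := (stL (seg O k) k).1
  L k := (stL (seg O k) k).2
  t k := seg O k
  sh0 := rfl
  len0 := rfl
  hsh k := by rw [stL_step]
  hL k := by
    rw [stL_step]
    refine ⟨(List.length_map _).symm, fun j hj => ?_⟩
    have : ∀ l : List (List Bool), j < l.length →
        nth (l.map fun ρ => ρ ++ [false]) j = nth l j ++ [false] := by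
      intro l hl
      simp [nth, hl]
    rw [this _ hj]
    exact ⟨List.prefix_append _ _, by simp⟩
  ht k := ⟨k, le_rfl, rfl⟩
  comp := by
    have h1 : ComputableIn {orc O} (seg O) := cin_seg (cin_orc rfl)
    have h2 := cin_prim prim_stL (cin_pair h1 Primrec.id.computableIn)
    have h3 := cin_pair h1 (cin_pair (cin_prim Primrec.fst h2)
      (cin_pair (ComputableIn.const 0) (cin_prim Primrec.snd h2)))
    exact h3

/-- The nested runs. -/
noncomputable def runs (O : ℕ → Bool) (e : ℕ) : Run O e :=
  Nat.rec (motive := Run O) (top O) (fun _ R => R.exists_next.choose) e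

theorem runs_next (O : ℕ → Bool) (e : ℕ) : (runs O e).Next (runs O (e + 1)) :=
  (runs O e).exists_next.choose_spec

theorem init_length (O : ℕ → Bool) (e : ℕ) : e ≤ (nth ((runs O e).L 0) 0).length := by
  induction e with
  | zero => exact Nat.zero_le _
  | succ e ih =>
    have := (runs_next O e).2.2.1.length_le
    simp only [List.length_append, List.length_singleton] at this
    omega

/-- The join of two reals. -/
def join (O Y : ℕ → Bool) (i : ℕ) : Bool := if i % 2 = 0 then O (i / 2) else Y (i / 2)

/-- The join of two strings. -/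
def jn (σ ρ : List Bool) : List Bool :=
  (List.range (min σ.length ρ.length)).map fun i =>
    if i % 2 = 0 then σ.getD (i / 2) false else ρ.getD (i / 2) false

theorem prim_jn : Primrec₂ jn := by
  have h1 : Primrec fun y : (List Bool × List Bool) × ℕ => y.2 / 2 :=
    Primrec.nat_div.comp Primrec.snd (.const 2)
  have h2 : Primrec fun y : (List Bool × List Bool) × ℕ =>
      if y.2 % 2 = 0 then y.1.1.getD (y.2 / 2) false else y.1.2.getD (y.2 / 2) false :=
    Primrec.ite (Primrec.eq.comp (Primrec.nat_mod.comp Primrec.snd (.const 2)) (.const 0))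
      ((Primrec.list_getD false).comp (Primrec.fst.comp Primrec.fst) h1)
      ((Primrec.list_getD false).comp (Primrec.snd.comp Primrec.fst) h1)
  have h3 := Primrec.list_map (Primrec.list_range.comp (Primrec.nat_min.comp
    (Primrec.list_length.comp Primrec.fst) (Primrec.list_length.comp Primrec.snd))) h2.to₂
  exact h3

theorem seg_getD (Z : ℕ → Bool) {k i : ℕ} (h : i < k) : (seg Z k).getD i false = Z i := by
  simp [seg, h]

theorem jn_seg (O Y : ℕ → Bool) (j k : ℕ) :
    jn (seg O j) (seg Y k) = seg (join O Y) (min j k) := by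
  unfold jn
  rw [seg_length, seg_length]
  refine List.map_congr_left fun i hi => ?_
  have := List.mem_range.1 hi
  rw [seg_getD O (by omega), seg_getD Y (by omega), join]

/-- The `e`-th family enumerates the strings that are not initial segments of `Z`. -/
def Cd (O : ℕ → Bool) (e : ℕ) (Z : ℕ → Bool) : Prop :=
  ∀ ρ n, ¬ Pre ρ Z ↔ ∃ t, W e n (seg O t) ρ = true

theorem exists_cd {O Z : ℕ → Bool} (h : ComputableIn {orc O} Z) : ∃ e, Cd O e Z := by
  have h1 := cin_prim Primrec.encode (cin_seg h)
  obtain ⟨F, hF, hf⟩ := use_principle (RecursiveIn.iff_nat.1 h1)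
  simp only [Part.mem_some_iff] at hf
  have h2 : REPred fun y : (List Bool × ℕ × List Bool) × ℕ =>
      y.2 ∈ F y.1.2.2 y.1.1.length ∧ y.2 ≠ encode y.1.1 := by
    have h3 : Primrec fun y : (List Bool × ℕ × List Bool) × ℕ => ((y.1.2.2, y.1.1.length), y.2) :=
      ((Primrec.snd.comp (Primrec.snd.comp Primrec.fst)).pair
        (Primrec.list_length.comp (Primrec.fst.comp Primrec.fst))).pair Primrec.snd
    have h4 := re_comp (re_mem (f := fun p : List Bool × ℕ => F p.1 p.2) hF.partrec) h3.to_comp
    exact re_and h4 (re_of_prim (Primrec.eq.comp Primrec.snd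
      (Primrec.encode.comp (Primrec.fst.comp Primrec.fst))).not)
  obtain ⟨e, he⟩ := exists_W (re_exists (R := fun (x : List Bool × ℕ × List Bool) (v : ℕ) =>
    v ∈ F x.2.2 x.1.length ∧ v ≠ encode x.1) h2)
  refine ⟨e, fun ρ n => Iff.trans ?_ (he O ρ n)⟩
  constructor
  · intro hρ
    obtain ⟨j, hj⟩ := (hf ρ.length _).1 rfl
    refine ⟨ρ.length, le_rfl, j, _, by simpa using hj, fun h3 => hρ ?_⟩
    simpa [Pre] using h3
  · rintro ⟨k, -, j, v, h3, h4⟩ h5
    have h6 : Pre (ρ.take k) Z := h5.of_prefix (List.take_prefix _ _)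
    exact h4 (((hf _ v).2 ⟨j, h3⟩).trans (congrArg encode h6))

theorem exists_real (O : ℕ → Bool) : ∃ X ∈ (top O).P, (∀ e, ¬ Cd O e X) ∧
    (∀ Z ∈ (top O).P, Z = X ∨ ComputableIn {orc O} Z) ∧
    ∀ f : ℕ → ℕ, RecursiveIn {orc (join O X)} (f : ℕ →. ℕ) →
      ∃ g, ComputableIn {orc O} g ∧ ∀ n, f n ≤ g n := by
  classical
  obtain ⟨X, hX⟩ := IsCompact.nonempty_iInter_of_sequence_nonempty_isCompact_isClosed
    (fun e => (runs O e).P) (fun e => (runs_next O e).1)
    (fun e => let ⟨Z, hZ, _⟩ := (runs O e).exists_reserve; ⟨Z, hZ⟩)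
    (runs O 0).isClosed_P.isCompact (fun e => (runs O e).isClosed_P)
  have hX' : ∀ e, X ∈ (runs O e).P := Set.mem_iInter.1 hX
  refine ⟨X, hX' 0, fun e he => ?_, fun Z hZ => ?_, fun f hf => ?_⟩
  · rcases (runs_next O e).2.2.2 with ⟨n, h⟩ | h
    · obtain ⟨Z, hZ, hZ'⟩ := (runs O (e + 1)).exists_reserve
      have h2 := ((runs O (e + 2)).pre_init (hX' _)).of_prefix (runs_next O (e + 1)).2.2.1
      have h3 : Pre (nth ((runs O (e + 1)).L 0) 0 ++ [true]) X := by
        by_contra h3
        obtain ⟨t, ht⟩ := (he _ n).1 h3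
        have := h Z hZ (nth ((runs O (e + 1)).L 0) 0 ++ [true]).length t
        rw [hZ', ht] at this
        exact absurd this (by simp)
      have h4 := h2.getElem? (m := (nth ((runs O (e + 1)).L 0) 0).length) (by simp)
      have h5 := h3.getElem? (m := (nth ((runs O (e + 1)).L 0) 0).length) (by simp)
      simp only [List.getElem?_concat_length, Option.some.injEq] at h4 h5
      rw [← h4] at h5
      exact absurd h5 (by simp)
    · obtain ⟨ρ, h1, h2⟩ := hX' (e + 1) 0
      exact (he ρ 0).2 (h 0 ρ h1) h2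
  · by_cases hc : ComputableIn {orc O} Z
    · exact Or.inr hc
    left
    have hZ' : ∀ e, Z ∈ (runs O e).P := by
      intro e
      induction e with
      | zero => exact hZ
      | succ e ih => exact ((runs_next O e).2.1 Z ih).resolve_right hc
    funext m
    have h1 := ((runs O (m + 1)).pre_init (hZ' _)).getElem? (init_length O (m + 1))
    have h2 := ((runs O (m + 1)).pre_init (hX' _)).getElem? (init_length O (m + 1))
    exact Option.some.inj (h1.symm.trans h2)
  · obtain ⟨F, hF, hf⟩ := use_principle (RecursiveIn.iff_nat.1 hf)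
    simp only [PFun.coe_val, Part.mem_some_iff] at hf
    have h0 : Primrec fun p : List Bool × ℕ × List Bool => (jn p.2.2 p.1, p.2.1) :=
      (prim_jn.comp (Primrec.snd.comp Primrec.snd) Primrec.fst).pair (Primrec.fst.comp Primrec.snd)
    obtain ⟨e, he⟩ := exists_W (re_comp (Partrec.dom_re hF.partrec) h0.to_comp)
    rcases (runs_next O e).2.2.2 with ⟨n, h⟩ | h
    · obtain ⟨k, hk⟩ := (hf n _).1 rfl
      obtain ⟨t, ht⟩ := (he O (seg X k) n).1 ⟨k, by simp, k, by
        rw [seg_take X le_rfl, jn_seg, min_self]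
        exact Part.dom_iff_mem.2 ⟨_, hk⟩⟩
      rw [h X (hX' _) k t] at ht
      exact absurd ht (by simp)
    · obtain ⟨q, hq, eq⟩ := re_normal (re_mem (f := fun p : List Bool × ℕ => F p.1 p.2) hF.partrec)
      let r : List Bool → List Bool → ℕ → ℕ → Prop := fun σ ρ n c =>
        q ((jn (σ.take c.unpair.1.unpair.1) (ρ.take c.unpair.1.unpair.2), n),
          c.unpair.2.unpair.1) c.unpair.2.unpair.2
      have h1 : PrimrecRel fun (ρ : List Bool) (y : List Bool × ℕ) =>
          ∃ c < y.1.length, r y.1 ρ y.2 c := by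
        have a1 : Primrec fun z : ℕ × List Bool × List Bool × ℕ => z.1.unpair.1.unpair :=
          Primrec.unpair.comp (Primrec.fst.comp (Primrec.unpair.comp Primrec.fst))
        have a2 : Primrec fun z : ℕ × List Bool × List Bool × ℕ => z.1.unpair.2.unpair :=
          Primrec.unpair.comp (Primrec.snd.comp (Primrec.unpair.comp Primrec.fst))
        have a3 := prim_jn.comp (Primrec.list_take.comp (Primrec.fst.comp a1)
          (Primrec.fst.comp (Primrec.snd.comp Primrec.snd)))
          (Primrec.list_take.comp (Primrec.snd.comp a1) (Primrec.fst.comp Primrec.snd))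
        have a4 := hq.comp ((a3.pair (Primrec.snd.comp (Primrec.snd.comp Primrec.snd))).pair
          (Primrec.fst.comp a2)) (Primrec.snd.comp a2)
        exact prim_exists_lt (R := fun (c : ℕ) (z : List Bool × List Bool × ℕ) =>
          r z.2.1 z.1 z.2.2 c) (Primrec.list_length.comp (Primrec.fst.comp Primrec.snd)) a4
      have h2 := cin_pair
        (cin_comp (runs O (e + 1)).comp_L (Primrec.fst (β := ℕ)).computableIn)
        (cin_pair (cin_comp (cin_seg (cin_orc (X := O) rfl)) Primrec.snd.computableIn)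
          Primrec.fst.computableIn)
      have hex : ∀ n, ∃ m, ∀ ρ ∈ (runs O (e + 1)).L n,
          ∃ c < (seg O m).length, r (seg O m) ρ n c := by
        intro n
        simp only [seg_length]
        have h3 : ∀ ρ ∈ (runs O (e + 1)).L n, ∃ c, ∀ m > c, r (seg O m) ρ n c := by
          intro ρ hρ
          obtain ⟨k, -, j, h4⟩ := (he O ρ n).2 (h n ρ hρ)
          obtain ⟨v, hv⟩ := Part.dom_iff_mem.1 h4
          obtain ⟨t, ht⟩ := (eq ((_, n), v)).1 hv
          refine ⟨Nat.pair (Nat.pair j k) (Nat.pair v t), fun m hm => ?_⟩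
          have h5 := (Nat.left_le_pair j k).trans (Nat.left_le_pair _ (Nat.pair v t))
          simp only [r, Nat.unpair_pair]
          rwa [seg_take O (by omega)]
        generalize (runs O (e + 1)).L n = l at h3
        have h4 : ∃ m₀, ∀ ρ ∈ l, ∃ c < m₀, ∀ m > c, r (seg O m) ρ n c := by
          induction l with
          | nil => exact ⟨0, by simp⟩
          | cons ρ l ih =>
            obtain ⟨m, hm⟩ := ih fun σ hσ => h3 σ (List.mem_cons_of_mem _ hσ)
            obtain ⟨c, hc⟩ := h3 ρ List.mem_cons_self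
            refine ⟨m + c + 1, fun σ hσ => ?_⟩
            rcases List.mem_cons.1 hσ with rfl | hσ
            · exact ⟨c, by omega, hc⟩
            · obtain ⟨c', a1, a2⟩ := hm σ hσ
              exact ⟨c', by omega, a2⟩
        obtain ⟨m, hm⟩ := h4
        exact ⟨m, fun ρ hρ => let ⟨c, a1, a2⟩ := hm ρ hρ; ⟨c, a1, a2 m a1⟩⟩
      obtain ⟨g, g1, g2⟩ := cin_search h1.forall_mem_list h2 hex
      refine ⟨g, g1, fun n => ?_⟩
      obtain ⟨ρ, h3, h4⟩ := hX' (e + 1) n
      obtain ⟨c, h5, h6⟩ := g2 n ρ h3
      simp only [seg_length] at h5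
      have h7 := (eq ((_, n), _)).2 ⟨_, h6⟩
      have a1 := (Nat.unpair_left_le c.unpair.1).trans (Nat.unpair_left_le c)
      have a2 := (Nat.unpair_left_le c.unpair.2).trans (Nat.unpair_right_le c)
      have a3 : Pre (ρ.take c.unpair.1.unpair.2) X := h4.of_prefix (List.take_prefix _ _)
      simp only at h7
      rw [seg_take O (by omega), ← a3, jn_seg] at h7
      rw [← (hf n _).2 ⟨_, h7⟩]
      omega

end Pool.Agent.Lib.MP_4b35b9_lc.Rel
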